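import Mathlib

/-!
# A patch of triangles and hexagons that extends to a tiling but to no convex patch

The patch is a column of three regular hexagons, consecutive ones sharing a side.  It is part of the
2-uniform tiling `(3^2.6^2; 3.6.3.6)`, but no convex patch contains it.
-/

set_option autoImplicit false

namespace Pool.Agent.Results.MP_12bd27_co.Column

open Set

/-- The complex number `exp(iπ/3)`. -/
noncomputable def ζ : ℂ := ⟨1 / 2, √3 / 2⟩

/-- The vertices of the equilateral triangle on the left of the vector from `a` to `a + u`. -/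
def triV (a u : ℂ) : Set ℂ := {a, a + u, a + u * ζ}

/-- The vertices of the regular hexagon with centre `c` having `c + u` as a vertex. -/
def hexV (c u : ℂ) : Set ℂ := {c + u, c + u * ζ, c + u * ζ ^ 2, c + u * ζ ^ 3, c + u * ζ ^ 4, c + u * ζ ^ 5}

/-- `V` is the set of vertices of a regular triangle of side one. -/
def IsTri (V : Set ℂ) : Prop := ∃ a u : ℂ, ‖u‖ = 1 ∧ V = triV a u

/-- `V` is the set of vertices of a regular hexagon of side one. -/
def IsHex (V : Set ℂ) : Prop := ∃ c u : ℂ, ‖u‖ = 1 ∧ V = hexV c u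

/-- The region (closed polygon) with vertex set `V`. A tile is given by its set of vertices. -/
def Reg (V : Set ℂ) : Set ℂ := convexHull ℝ V

/-- Two tiles are placed edge-to-edge: they are disjoint, or meet in one common vertex, or meet in one
common side (a side of a tile joins two of its vertices at distance one). -/
def EdgeToEdge (V W : Set ℂ) : Prop :=
  Reg V ∩ Reg W = ∅ ∨ (∃ v, v ∈ V ∧ v ∈ W ∧ Reg V ∩ Reg W = {v}) ∨
    (∃ v w, v ∈ V ∧ w ∈ V ∧ v ∈ W ∧ w ∈ W ∧ dist v w = 1 ∧ Reg V ∩ Reg W = segment ℝ v w)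

/-- The union of the tiles of `B`. -/
def Supp (B : Set (Set ℂ)) : Set ℂ := ⋃ V ∈ B, Reg V

/-- A patch all of whose vertices are admissible: finitely many regular triangles and hexagons of side
one, placed edge-to-edge, whose union is homeomorphic to the closed disk, with at most two triangles and
at most two hexagons at each vertex. -/
def IsPatch (B : Set (Set ℂ)) : Prop :=
  B.Finite ∧ (∀ V ∈ B, IsTri V ∨ IsHex V) ∧ (∀ V ∈ B, ∀ W ∈ B, V ≠ W → EdgeToEdge V W) ∧
    Nonempty (Supp B ≃ₜ Metric.closedBall (0 : ℂ) 1) ∧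
    ∀ V ∈ B, ∀ p ∈ V, {W ∈ B | IsTri W ∧ p ∈ W}.encard ≤ 2 ∧ {W ∈ B | IsHex W ∧ p ∈ W}.encard ≤ 2

/-- A tiling of the plane by regular triangles and hexagons of side one, placed edge-to-edge, with
exactly two triangles and two hexagons at each vertex. -/
def IsTiling (τ : Set (Set ℂ)) : Prop :=
  (∀ V ∈ τ, IsTri V ∨ IsHex V) ∧ (∀ V ∈ τ, ∀ W ∈ τ, V ≠ W → EdgeToEdge V W) ∧
    Supp τ = Set.univ ∧
    ∀ V ∈ τ, ∀ p ∈ V, {W ∈ τ | IsTri W ∧ p ∈ W}.encard = 2 ∧ {W ∈ τ | IsHex W ∧ p ∈ W}.encard = 2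

/-! ### Powers of `ζ` -/

theorem sq3 : (√3 : ℝ) * √3 = 3 := Real.mul_self_sqrt (by norm_num)

theorem sq3_pos : (0 : ℝ) < √3 := Real.sqrt_pos.2 (by norm_num)

theorem ζ_re : ζ.re = 1 / 2 := rfl
theorem ζ_im : ζ.im = √3 / 2 := rfl

theorem ζ_sq : ζ ^ 2 = ζ - 1 := by
  apply Complex.ext
  · simp [pow_two, ζ_re, ζ_im]; nlinarith [sq3]
  · simp [pow_two, ζ_re, ζ_im]; ring

theorem ζ_cube : ζ ^ 3 = -1 := by
  have : ζ ^ 3 = ζ * ζ ^ 2 := by ring
  rw [this, ζ_sq]
  have : ζ * (ζ - 1) = ζ ^ 2 - ζ := by ring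
  rw [this, ζ_sq]; ring

theorem ζ_4 : ζ ^ 4 = -ζ := by
  have : ζ ^ 4 = ζ * ζ ^ 3 := by ring
  rw [this, ζ_cube]; ring

theorem ζ_5 : ζ ^ 5 = 1 - ζ := by
  have : ζ ^ 5 = ζ ^ 2 * ζ ^ 3 := by ring
  rw [this, ζ_cube, ζ_sq]; ring

theorem hexV_eq (c u : ℂ) : hexV c u =
    {c + u, c + u * ζ, c + u * (ζ - 1), c - u, c - u * ζ, c + u * (1 - ζ)} := by
  unfold hexV
  rw [ζ_sq, ζ_cube, ζ_4, ζ_5]
  congr 4
  · ring
  · congr 1
    ring

theorem norm_ζ : ‖ζ‖ = 1 := by
  have : ‖ζ‖ ^ 2 = 1 := by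
    rw [← Complex.normSq_eq_norm_sq, Complex.normSq_apply, ζ_re, ζ_im]
    nlinarith [sq3]
  nlinarith [norm_nonneg ζ]

theorem ζ_ne : ζ ≠ 0 := by
  intro h
  have := norm_ζ
  rw [h] at this
  simp at this

/-! ### Coordinates -/

/-- The point with lattice coordinates `(m, n)`. -/
noncomputable def pt (m n : ℝ) : ℂ := m + n * ζ

/-- The second lattice coordinate. -/
noncomputable def cN : ℂ →ₗ[ℝ] ℝ := (2 / √3) • Complex.imLm

/-- The first lattice coordinate. -/
noncomputable def cM : ℂ →ₗ[ℝ] ℝ := Complex.reLm - (1 / √3) • Complex.imLm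

theorem cN_apply (z : ℂ) : cN z = 2 / √3 * z.im := rfl
theorem cM_apply (z : ℂ) : cM z = z.re - 1 / √3 * z.im := rfl

@[simp] theorem cN_pt (m n : ℝ) : cN (pt m n) = n := by
  have := sq3_pos.ne'
  simp only [cN_apply, pt]
  simp [ζ_re, ζ_im]
  field_simp

@[simp] theorem cM_pt (m n : ℝ) : cM (pt m n) = m := by
  have := sq3_pos.ne'
  simp only [cM_apply, pt]
  simp [ζ_re, ζ_im]
  field_simp
  ring

theorem pt_cM_cN (z : ℂ) : pt (cM z) (cN z) = z := by
  have := sq3_pos.ne'
  apply Complex.ext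
  · simp [pt, cM_apply, cN_apply, ζ_re, ζ_im]
    field_simp
    linear_combination (-z.im) * sq3
  · simp [pt, cM_apply, cN_apply, ζ_re, ζ_im]
    field_simp

theorem pt_inj {m n m' n' : ℝ} : pt m n = pt m' n' ↔ m = m' ∧ n = n' := by
  constructor
  · intro h
    have h1 := congrArg cM h
    have h2 := congrArg cN h
    simp only [cM_pt, cN_pt] at h1 h2
    exact ⟨h1, h2⟩
  · rintro ⟨rfl, rfl⟩; rfl

theorem ext_pt {z w : ℂ} (h1 : cM z = cM w) (h2 : cN z = cN w) : z = w := by
  rw [← pt_cM_cN z, ← pt_cM_cN w, h1, h2]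

theorem pt_add (m n m' n' : ℝ) : pt m n + pt m' n' = pt (m + m') (n + n') := by
  simp only [pt]; push_cast; ring

theorem pt_re (m n : ℝ) : (pt m n).re = m + n / 2 := by
  simp [pt, ζ_re, ζ_im]; ring

theorem pt_im (m n : ℝ) : (pt m n).im = n * √3 / 2 := by
  simp [pt, ζ_re, ζ_im]; ring

/-- The hexagon with centre `pt m n` and horizontal sides. -/
theorem hexV_pt (m n : ℝ) : hexV (pt m n) 1 =
    {pt (m + 1) n, pt m (n + 1), pt (m - 1) (n + 1), pt (m - 1) n, pt m (n - 1), pt (m + 1) (n - 1)} := by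
  rw [hexV_eq]
  simp only [pt]
  push_cast
  congr 1
  · ring
  congr 1
  · ring
  congr 1
  · ring
  congr 1
  · ring
  congr 1
  · ring
  · congr 1
    ring

theorem triV_up (m n : ℝ) : triV (pt m n) ζ = {pt m n, pt m (n + 1), pt (m - 1) (n + 1)} := by
  unfold triV
  have : ζ * ζ = ζ - 1 := by rw [← ζ_sq]; ring
  rw [this]
  simp only [pt]
  push_cast
  congr 1
  congr 1
  · ring
  · congr 1
    ring

theorem triV_down (m n : ℝ) : triV (pt m n) (-ζ) = {pt m n, pt m (n - 1), pt (m + 1) (n - 1)} := by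
  unfold triV
  have : -ζ * ζ = 1 - ζ := by rw [neg_mul, ← pow_two, ζ_sq]; ring
  rw [this]
  simp only [pt]
  push_cast
  congr 1
  congr 1
  · ring
  · congr 1
    ring


/-! ### The neighbour of a tile across a side -/

/-- Signed distance (times the length of `u`) from the line through `a` with direction `u`. -/
noncomputable def side (a u z : ℂ) : ℝ := (z.im - a.im) * u.re - (z.re - a.re) * u.im

theorem side_comb (a u x y : ℂ) (s t : ℝ) (h : s + t = 1) :
    side a u (s • x + t • y) = s * side a u x + t * side a u y := by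
  have hs : s = 1 - t := by linarith
  subst hs
  simp only [side, Complex.add_im, Complex.add_re, Complex.smul_im, Complex.smul_re, smul_eq_mul]
  ring

theorem convex_side_nonneg (a u : ℂ) : Convex ℝ {z | 0 ≤ side a u z} := by
  intro x hx y hy s t hs ht hst
  simp only [Set.mem_ofPred_eq] at *
  rw [side_comb _ _ _ _ _ _ hst]
  positivity

theorem reg_side {a u : ℂ} {V : Set ℂ} (h : ∀ v ∈ V, 0 ≤ side a u v) {z : ℂ} (hz : z ∈ Reg V) :
    0 ≤ side a u z :=
  convexHull_min (fun v hv => h v hv) (convex_side_nonneg a u) hz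

theorem norm_sq_one {u : ℂ} (hu : ‖u‖ = 1) : u.re * u.re + u.im * u.im = 1 := by
  rw [← Complex.normSq_apply, Complex.normSq_eq_norm_sq, hu]; norm_num

theorem side_vals {u : ℂ} (hu : ‖u‖ = 1) (a : ℂ) (x y : ℝ) :
    side a u (a + x * u + y * (u * ζ)) = y * (√3 / 2) := by
  have h := norm_sq_one hu
  simp only [side, Complex.add_im, Complex.add_re, Complex.mul_re, Complex.mul_im, ζ_re, ζ_im,
    Complex.ofReal_re, Complex.ofReal_im]
  linear_combination (y * (√3 / 2)) * h


theorem side_left {a u : ℂ} (hu : ‖u‖ = 1) {V : Set ℂ} (hV : V = triV a u ∨ V = hexV (a + u * ζ) u)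
    {v : ℂ} (hv : v ∈ V) : v = a ∨ v = a + u ∨ 0 < side a u v := by
  have h3 := sq3_pos
  rcases hV with rfl | rfl
  · rcases hv with rfl | rfl | hv
    · left; rfl
    · right; left; rfl
    · right; right
      rw [mem_singleton_iff] at hv
      subst hv
      have := side_vals hu a 0 1
      simp only [Complex.ofReal_zero, zero_mul, add_zero, Complex.ofReal_one, one_mul] at this
      rw [this]; positivity
  · rw [hexV_eq] at hv
    rcases hv with rfl | rfl | rfl | rfl | rfl | hv
    · right; right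
      have := side_vals hu a 1 1
      have e : a + ((1 : ℝ) : ℂ) * u + ((1 : ℝ) : ℂ) * (u * ζ) = a + u * ζ + u := by push_cast; ring
      rw [e] at this
      rw [this]; positivity
    · right; right
      have := side_vals hu a 0 2
      have e : a + ((0 : ℝ) : ℂ) * u + ((2 : ℝ) : ℂ) * (u * ζ) = a + u * ζ + u * ζ := by push_cast; ring
      rw [e] at this
      rw [this]; positivity
    · right; right
      have := side_vals hu a (-1) 2
      have e : a + ((-1 : ℝ) : ℂ) * u + ((2 : ℝ) : ℂ) * (u * ζ) = a + u * ζ + u * (ζ - 1) := by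
        push_cast; ring
      rw [e] at this
      rw [this]; positivity
    · right; right
      have := side_vals hu a (-1) 1
      have e : a + ((-1 : ℝ) : ℂ) * u + ((1 : ℝ) : ℂ) * (u * ζ) = a + u * ζ - u := by push_cast; ring
      rw [e] at this
      rw [this]; positivity
    · left; ring
    · right; left
      rw [mem_singleton_iff] at hv
      rw [hv]; ring

theorem side_self (a u : ℂ) : side a u a = 0 := by simp [side]

theorem side_end (a u : ℂ) : side a u (a + u) = 0 := by
  simp [side]; ring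

theorem side_mid (a u : ℂ) : side a u (a + u / 2) = 0 := by
  simp only [side, Complex.add_im, Complex.add_re]
  have h1 : (u / 2).im = u.im / 2 := by
    have : (u / 2) = u * ((1 / 2 : ℝ) : ℂ) := by push_cast; ring
    rw [this]; simp; ring
  have h2 : (u / 2).re = u.re / 2 := by
    have : (u / 2) = u * ((1 / 2 : ℝ) : ℂ) := by push_cast; ring
    rw [this]; simp; ring
  rw [h1, h2]; ring

theorem hexV_rot (c u : ℂ) : hexV c (u * ζ) = hexV c u := by
  have h6 : u * ζ * ζ ^ 5 = u := by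
    have : ζ * ζ ^ 5 = 1 := by
      have : ζ * ζ ^ 5 = (ζ ^ 3) ^ 2 := by ring
      rw [this, ζ_cube]; ring
    rw [mul_assoc, this, mul_one]
  unfold hexV
  rw [h6]
  have e1 : u * ζ * ζ = u * ζ ^ 2 := by ring
  have e2 : u * ζ * ζ ^ 2 = u * ζ ^ 3 := by ring
  have e3 : u * ζ * ζ ^ 3 = u * ζ ^ 4 := by ring
  have e4 : u * ζ * ζ ^ 4 = u * ζ ^ 5 := by ring
  rw [e1, e2, e3, e4]
  ext z
  simp only [mem_insert_iff, mem_singleton_iff]
  tauto

theorem hexV_rot_pow (c u : ℂ) (k : ℕ) : hexV c (u * ζ ^ k) = hexV c u := by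
  induction k with
  | zero => simp
  | succ k ih => rw [pow_succ, ← mul_assoc, hexV_rot, ih]

theorem hexV_exists {c w v : ℂ} (hw : ‖w‖ = 1) (hv : v ∈ hexV c w) :
    ∃ w', ‖w'‖ = 1 ∧ hexV c w' = hexV c w ∧ v = c + w' := by
  have key : ∃ k : ℕ, v = c + w * ζ ^ k := by
    rcases hv with rfl | rfl | rfl | rfl | rfl | hv
    · exact ⟨0, by simp⟩
    · exact ⟨1, by simp⟩
    · exact ⟨2, rfl⟩
    · exact ⟨3, rfl⟩
    · exact ⟨4, rfl⟩
    · exact ⟨5, hv⟩
  obtain ⟨k, hk⟩ := key
  refine ⟨w * ζ ^ k, ?_, hexV_rot_pow c w k, hk⟩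
  rw [norm_mul, norm_pow, norm_ζ, hw]; simp

theorem hex_side {a u : ℂ} (hu : ‖u‖ = 1) {W : Set ℂ} (hW : IsHex W) (h1 : a ∈ W) (h2 : a + u ∈ W) :
    W = hexV (a + u * ζ) u ∨ W = hexV (a + u - u * ζ) u := by
  obtain ⟨c, w, hw, rfl⟩ := hW
  obtain ⟨w', hw', he, ha⟩ := hexV_exists hw h1
  rw [← he] at h2 ⊢
  have hn : ∀ x : ℂ, u = w' * x → x.re * x.re + x.im * x.im = 1 := by
    intro x hx
    have : ‖u‖ = ‖w'‖ * ‖x‖ := by rw [hx, norm_mul]
    rw [hu, hw', one_mul] at this
    exact norm_sq_one this.symm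
  rcases h2 with h | h | h | h | h | h
  · exfalso
    have : u = w' * 0 := by linear_combination h - ha
    have := hn 0 this
    simp at this
  · left
    clear h1
    have hu' : u = w' * (ζ - 1) := by linear_combination h - ha
    have hw2 : w' = u * ζ ^ 4 := by
      have : u * ζ ^ 4 = w' * (ζ ^ 5 - ζ ^ 4) := by rw [hu']; ring
      rw [this, ζ_5, ζ_4]; ring
    have hc : c = a + u * ζ := by
      have : c = a - w' := by linear_combination -ha
      rw [this, hw2, ζ_4]; ring
    rw [← hc]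
    conv_lhs => rw [hw2]
    exact hexV_rot_pow c u 4
  · exfalso
    have : u = w' * (ζ ^ 2 - 1) := by linear_combination h - ha
    have := hn _ this
    rw [ζ_sq] at this
    simp only [Complex.sub_re, Complex.sub_im, Complex.one_re, Complex.one_im, ζ_re, ζ_im] at this
    nlinarith [sq3]
  · exfalso
    have : u = w' * (ζ ^ 3 - 1) := by linear_combination h - ha
    have := hn _ this
    rw [ζ_cube] at this
    simp only [Complex.sub_re, Complex.sub_im, Complex.one_re, Complex.one_im, Complex.neg_re,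
      Complex.neg_im] at this
    nlinarith [sq3]
  · exfalso
    have : u = w' * (ζ ^ 4 - 1) := by linear_combination h - ha
    have := hn _ this
    rw [ζ_4] at this
    simp only [Complex.sub_re, Complex.sub_im, Complex.one_re, Complex.one_im, Complex.neg_re,
      Complex.neg_im, ζ_re, ζ_im] at this
    nlinarith [sq3]
  · right
    rw [mem_singleton_iff, ζ_5] at h
    have hu' : u = -(w' * ζ) := by linear_combination h - ha
    have hw2 : w' = u * ζ ^ 2 := by
      have : u * ζ ^ 2 = -(w' * ζ ^ 3) := by rw [hu']; ring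
      rw [this, ζ_cube]; ring
    have hc : c = a + u - u * ζ := by
      have : c = a - w' := by linear_combination -ha
      rw [this, hw2, ζ_sq]; ring
    rw [← hc]
    conv_lhs => rw [hw2]
    exact hexV_rot_pow c u 2

theorem triV_rot1 (b w : ℂ) : triV (b + w) (w * ζ - w) = triV b w := by
  unfold triV
  have e1 : b + w + (w * ζ - w) = b + w * ζ := by ring
  have e2 : b + w + (w * ζ - w) * ζ = b := by
    have : (w * ζ - w) * ζ = w * (ζ ^ 2 - ζ) := by ring
    rw [this, ζ_sq]; ring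
  rw [e1, e2]
  ext z
  simp only [mem_insert_iff, mem_singleton_iff]
  tauto

theorem triV_rot2 (b w : ℂ) : triV (b + w * ζ) (-(w * ζ)) = triV b w := by
  unfold triV
  have e1 : b + w * ζ + -(w * ζ) = b := by ring
  have e2 : b + w * ζ + -(w * ζ) * ζ = b + w := by
    have : -(w * ζ) * ζ = w * (-ζ ^ 2) := by ring
    rw [this, ζ_sq]; ring
  rw [e1, e2]
  ext z
  simp only [mem_insert_iff, mem_singleton_iff]
  tauto

theorem tri_side {a u : ℂ} (hu : ‖u‖ = 1) {W : Set ℂ} (hW : IsTri W) (h1 : a ∈ W) (h2 : a + u ∈ W) :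
    W = triV a u ∨ W = triV (a + u) (-u) := by
  obtain ⟨b, w, hw, rfl⟩ := hW
  have hu0 : u ≠ 0 := by intro h; rw [h] at hu; simp at hu
  rcases h1 with h1 | h1 | h1 <;> rcases h2 with h2 | h2 | h2 <;>
    (try rw [mem_singleton_iff] at h1) <;> (try rw [mem_singleton_iff] at h2)
  · exact absurd (by linear_combination h2 - h1) hu0
  · left
    have : u = w := by linear_combination h2 - h1
    rw [h1, this]
  · right
    have : u = w * ζ := by linear_combination h2 - h1
    rw [h1, this]; exact (triV_rot2 b w).symm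
  · right
    have : u = -w := by linear_combination h2 - h1
    rw [h1, this]
    have e : b + w + -w = b := by ring
    rw [e, neg_neg]
  · exact absurd (by linear_combination h2 - h1) hu0
  · left
    have : u = w * ζ - w := by linear_combination h2 - h1
    rw [h1, this]; exact (triV_rot1 b w).symm
  · left
    have : u = -(w * ζ) := by linear_combination h2 - h1
    rw [h1, this]; exact (triV_rot2 b w).symm
  · right
    have : u = -(w * ζ - w) := by linear_combination h2 - h1
    rw [h1, this]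
    have e : b + w * ζ + -(w * ζ - w) = b + w := by ring
    rw [e, neg_neg]
    exact (triV_rot1 b w).symm
  · exact absurd (by linear_combination h2 - h1) hu0

theorem finite_tile {V : Set ℂ} (hV : IsTri V ∨ IsHex V) : V.Finite := by
  rcases hV with ⟨a, u, -, rfl⟩ | ⟨a, u, -, rfl⟩
  · simp [triV]
  · simp [hexV]

theorem compact_reg {V : Set ℂ} (hV : IsTri V ∨ IsHex V) : IsCompact (Reg V) :=
  (finite_tile hV).isCompact_convexHull ℝ

theorem compact_union {B : Set (Set ℂ)} (hfin : B.Finite) (ht : ∀ V ∈ B, IsTri V ∨ IsHex V) :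
    IsCompact (Supp B) :=
  hfin.isCompact_biUnion (fun V hV => compact_reg (ht V hV))

theorem mem_reg {V : Set ℂ} {v : ℂ} (h : v ∈ V) : v ∈ Reg V := subset_convexHull ℝ V h

theorem comb_reg {V : Set ℂ} {x y : ℂ} (hx : x ∈ Reg V) (hy : y ∈ Reg V) {s : ℝ} (h0 : 0 ≤ s)
    (h1 : s ≤ 1) : (1 - s) • x + s • y ∈ Reg V :=
  (convex_convexHull ℝ V) hx hy (by linarith) h0 (by ring)

/-- A point on the left of the side, contained in every tile on the left of the side. -/
theorem left_point {a u : ℂ} {V : Set ℂ} (hV : V = triV a u ∨ V = hexV (a + u * ζ) u) :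
    a + ((1 / 3 : ℝ) : ℂ) * u + ((1 / 3 : ℝ) : ℂ) * (u * ζ) ∈ Reg V := by
  have ha : a ∈ Reg V := by
    rcases hV with rfl | rfl
    · exact mem_reg (by simp [triV])
    · apply mem_reg; rw [hexV_eq]; simp
  have hb : a + u ∈ Reg V := by
    rcases hV with rfl | rfl
    · exact mem_reg (by simp [triV])
    · apply mem_reg; rw [hexV_eq]
      have : a + u * ζ + u * (1 - ζ) = a + u := by ring
      simp only [this]; simp
  have hc : a + u * ζ ∈ Reg V := by
    rcases hV with rfl | rfl
    · exact mem_reg (by simp [triV])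
    · have h1 : a + u * ζ + u ∈ Reg (hexV (a + u * ζ) u) := by
        apply mem_reg; rw [hexV_eq]; simp
      have h2 : a + u * ζ - u ∈ Reg (hexV (a + u * ζ) u) := by
        apply mem_reg; rw [hexV_eq]; simp
      have := comb_reg h1 h2 (s := 1 / 2) (by norm_num) (by norm_num)
      convert this using 1
      simp only [Complex.real_smul]
      push_cast; ring
  have h1 := comb_reg hb hc (s := 1 / 2) (by norm_num) (by norm_num)
  have h2 := comb_reg ha h1 (s := 2 / 3) (by norm_num) (by norm_num)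
  convert h2 using 1
  simp only [Complex.real_smul]
  push_cast; ring

theorem neighbour {B : Set (Set ℂ)} (hfin : B.Finite) (ht : ∀ V ∈ B, IsTri V ∨ IsHex V)
    (hee : ∀ V ∈ B, ∀ W ∈ B, V ≠ W → EdgeToEdge V W) {a u : ℂ} (hu : ‖u‖ = 1) {V : Set ℂ}
    (hVB : V ∈ B) (hV : V = triV a u ∨ V = hexV (a + u * ζ) u)
    (hm : a + u / 2 ∈ interior (Supp B)) :
    triV (a + u) (-u) ∈ B ∨ hexV (a + u - u * ζ) u ∈ B := by
  have hu0 : u ≠ 0 := by intro h; rw [h] at hu; simp at hu
  have hside : ∀ v ∈ V, 0 ≤ side a u v := by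
    intro v hv
    rcases side_left hu hV hv with rfl | rfl | h
    · rw [side_self]
    · rw [side_end]
    · exact h.le
  -- the midpoint belongs to another tile
  have hW : ∃ W ∈ B, V ≠ W ∧ a + u / 2 ∈ Reg W := by
    by_contra hcon
    push Not at hcon
    have hK : IsClosed (⋃ W ∈ B \ {V}, Reg W) :=
      (hfin.subset sdiff_subset).isClosed_biUnion (fun W hW => (compact_reg (ht W hW.1)).isClosed)
    have hmK : a + u / 2 ∉ ⋃ W ∈ B \ {V}, Reg W := by
      intro h
      simp only [mem_iUnion, exists_prop] at h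
      obtain ⟨W, ⟨hWB, hWV⟩, hmW⟩ := h
      exact hcon W hWB (fun h => hWV h.symm) hmW
    have hnhds : interior (Supp B) ∩ (⋃ W ∈ B \ {V}, Reg W)ᶜ ∈ nhds (a + u / 2) :=
      (isOpen_interior.inter hK.isOpen_compl).mem_nhds ⟨hm, hmK⟩
    have hsub : interior (Supp B) ∩ (⋃ W ∈ B \ {V}, Reg W)ᶜ ⊆ Reg V := by
      rintro z ⟨h1, h2⟩
      have h3 := interior_subset h1
      simp only [Supp, mem_iUnion, exists_prop] at h3
      obtain ⟨W, hWB, hzW⟩ := h3
      by_cases hWV : W = V
      · rw [← hWV]; exact hzW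
      · exfalso
        apply h2
        simp only [mem_iUnion, exists_prop]
        exact ⟨W, ⟨hWB, hWV⟩, hzW⟩
    have hnV := Filter.mem_of_superset hnhds hsub
    rw [Metric.mem_nhds_iff] at hnV
    obtain ⟨ε, hε, hball⟩ := hnV
    have hz : a + u / 2 + ((-(ε / 2) : ℝ) : ℂ) * (Complex.I * u) ∈ Metric.ball (a + u / 2) ε := by
      rw [Metric.mem_ball, dist_eq_norm]
      have : a + u / 2 + ((-(ε / 2) : ℝ) : ℂ) * (Complex.I * u) - (a + u / 2) =
        ((-(ε / 2) : ℝ) : ℂ) * (Complex.I * u) := by ring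
      rw [this, norm_mul, norm_mul, Complex.norm_I, hu, Complex.norm_real, Real.norm_eq_abs, abs_neg,
        abs_of_pos (by linarith)]
      linarith
    have h1 := reg_side hside (hball hz)
    have h2 : side a u (a + u / 2 + ((-(ε / 2) : ℝ) : ℂ) * (Complex.I * u)) =
        side a u (a + u / 2) - ε / 2 * (u.re * u.re + u.im * u.im) := by
      simp only [side, Complex.add_im, Complex.add_re, Complex.mul_re, Complex.mul_im, Complex.I_re,
        Complex.I_im, Complex.ofReal_re, Complex.ofReal_im]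
      ring
    rw [h2, side_mid, norm_sq_one hu] at h1
    linarith
  obtain ⟨W, hWB, hVW, hmW⟩ := hW
  have hmV : a + u / 2 ∈ Reg V := by
    have ha : a ∈ Reg V := by
      rcases hV with rfl | rfl
      · exact mem_reg (by simp [triV])
      · apply mem_reg; rw [hexV_eq]; simp
    have hb : a + u ∈ Reg V := by
      rcases hV with rfl | rfl
      · exact mem_reg (by simp [triV])
      · apply mem_reg; rw [hexV_eq]
        have : a + u * ζ + u * (1 - ζ) = a + u := by ring
        simp only [this]; simp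
    have := comb_reg ha hb (s := 1 / 2) (by norm_num) (by norm_num)
    convert this using 1
    simp only [Complex.real_smul]
    push_cast; ring
  have hma : a + u / 2 ≠ a := by
    intro h
    apply hu0
    linear_combination 2 * h
  have hmb : a + u / 2 ≠ a + u := by
    intro h
    apply hu0
    linear_combination (-2) * h
  have hmnot : a + u / 2 ∉ V := by
    intro h
    rcases side_left hu hV h with h | h | h
    · exact hma h
    · exact hmb h
    · rw [side_mid] at h; exact lt_irrefl _ h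
  rcases hee V hVB W hWB hVW with h | ⟨v, hvV, hvW, h⟩ | ⟨v, w, hvV, hwV, hvW, hwW, hd, h⟩
  · have : a + u / 2 ∈ Reg V ∩ Reg W := ⟨hmV, hmW⟩
    rw [h] at this
    exact absurd this (notMem_empty _)
  · have : a + u / 2 ∈ Reg V ∩ Reg W := ⟨hmV, hmW⟩
    rw [h, mem_singleton_iff] at this
    rw [this] at hmnot
    exact absurd hvV hmnot
  · have hmem : a + u / 2 ∈ Reg V ∩ Reg W := ⟨hmV, hmW⟩
    rw [h] at hmem
    obtain ⟨s, t, hs, htt, hst, hmem⟩ := hmem
    have hv0 := hside v hvV
    have hw0 := hside w hwV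
    have hsum : s * side a u v + t * side a u w = 0 := by
      rw [← side_comb a u v w s t hst, hmem, side_mid]
    have hs' : s ≠ 0 := by
      rintro rfl
      rw [zero_add] at hst
      rw [hst] at hmem
      simp at hmem
      rw [← hmem] at hmnot
      exact hmnot hwV
    have ht' : t ≠ 0 := by
      rintro rfl
      rw [add_zero] at hst
      rw [hst] at hmem
      simp at hmem
      rw [← hmem] at hmnot
      exact hmnot hvV
    have hs'' : 0 < s := lt_of_le_of_ne hs (Ne.symm hs')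
    have ht'' : 0 < t := lt_of_le_of_ne htt (Ne.symm ht')
    have hv1 : side a u v = 0 := by
      have h1 : 0 ≤ s * side a u v := by positivity
      have h2 : 0 ≤ t * side a u w := by positivity
      have h3 : s * side a u v = 0 := by linarith
      rcases mul_eq_zero.1 h3 with h | h
      · exact absurd h hs'
      · exact h
    have hw1 : side a u w = 0 := by
      have h1 : 0 ≤ s * side a u v := by positivity
      have h2 : 0 ≤ t * side a u w := by positivity
      have h3 : t * side a u w = 0 := by linarith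
      rcases mul_eq_zero.1 h3 with h | h
      · exact absurd h ht'
      · exact h
    have hv2 : v = a ∨ v = a + u := by
      rcases side_left hu hV hvV with h | h | h
      · exact Or.inl h
      · exact Or.inr h
      · rw [hv1] at h; exact absurd h (lt_irrefl _)
    have hw2 : w = a ∨ w = a + u := by
      rcases side_left hu hV hwV with h | h | h
      · exact Or.inl h
      · exact Or.inr h
      · rw [hw1] at h; exact absurd h (lt_irrefl _)
    have hvw : v ≠ w := by
      rintro rfl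
      simp at hd
    have haW : a ∈ W ∧ a + u ∈ W := by
      rcases hv2 with h1 | h1 <;> rcases hw2 with h2 | h2
      · exact absurd (h1.trans h2.symm) hvw
      · exact ⟨h1 ▸ hvW, h2 ▸ hwW⟩
      · exact ⟨h2 ▸ hwW, h1 ▸ hvW⟩
      · exact absurd (h1.trans h2.symm) hvw
    have hnotleft : ¬ (W = triV a u ∨ W = hexV (a + u * ζ) u) := by
      intro hWl
      have hg : a + ((1 / 3 : ℝ) : ℂ) * u + ((1 / 3 : ℝ) : ℂ) * (u * ζ) ∈ Reg V ∩ Reg W :=
        ⟨left_point hV, left_point hWl⟩
      rw [h] at hg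
      obtain ⟨s', t', _, _, hst', hg⟩ := hg
      have h1 : side a u (a + ((1 / 3 : ℝ) : ℂ) * u + ((1 / 3 : ℝ) : ℂ) * (u * ζ)) = 0 := by
        rw [← hg, side_comb a u v w s' t' hst', hv1, hw1]; ring
      rw [side_vals hu] at h1
      have := sq3_pos
      linarith
    rcases ht W hWB with hWt | hWh
    · rcases tri_side hu hWt haW.1 haW.2 with h | h
      · exact absurd (Or.inl h) hnotleft
      · left; rw [← h]; exact hWB
    · rcases hex_side hu hWh haW.1 haW.2 with h | h
      · exact absurd (Or.inr h) hnotleft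
      · right; rw [← h]; exact hWB

/-! ### Interior points of a convex union -/

theorem convex_three {U : Set ℂ} (hU : Convex ℝ U) {x y z : ℂ} (hx : x ∈ U) (hy : y ∈ U) (hz : z ∈ U)
    {α β γ : ℝ} (h1 : 0 ≤ α) (h2 : 0 ≤ β) (h3 : 0 ≤ γ) (h : α + β + γ = 1) :
    α • x + β • y + γ • z ∈ U := by
  have := hU.sum_mem (t := Finset.univ) (w := ![α, β, γ]) (z := ![x, y, z])
    (by intro i _; fin_cases i <;> assumption)
    (by simpa [Fin.sum_univ_three] using h)
    (by intro i _; fin_cases i <;> assumption)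
  simpa [Fin.sum_univ_three] using this

theorem half_nhds {U : Set ℂ} (hU : Convex ℝ U) {a u : ℂ} (hu : ‖u‖ = 1) (ha : a ∈ U) (hb : a + u ∈ U)
    {c : ℂ} (hc : c ∈ U) (hs : side a u c ≠ 0) :
    ∀ᶠ w in nhds (a + u / 2), 0 ≤ side a u w / side a u c → w ∈ U := by
  set τ : ℂ → ℝ := fun w => (w.re - a.re) * u.re + (w.im - a.im) * u.im with hτ
  have hn := norm_sq_one hu
  have hτm : τ (a + u / 2) = 1 / 2 := by
    simp only [hτ, Complex.add_im, Complex.add_re]
    have h1 : (u / 2).im = u.im / 2 := by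
      have : (u / 2) = u * ((1 / 2 : ℝ) : ℂ) := by push_cast; ring
      rw [this]; simp; ring
    have h2 : (u / 2).re = u.re / 2 := by
      have : (u / 2) = u * ((1 / 2 : ℝ) : ℂ) := by push_cast; ring
      rw [this]; simp; ring
    rw [h1, h2]; linear_combination (1 / 2) * hn
  have hcont1 : Continuous (fun w => τ w - side a u w / side a u c * τ c) := by
    simp only [hτ, side]
    fun_prop
  have hcont2 : Continuous
      (fun w => 1 - side a u w / side a u c - (τ w - side a u w / side a u c * τ c)) := by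
    simp only [hτ, side]
    fun_prop
  have v1 : 0 < τ (a + u / 2) - side a u (a + u / 2) / side a u c * τ c := by
    rw [side_mid, hτm]; norm_num
  have v2 : 0 < 1 - side a u (a + u / 2) / side a u c -
      (τ (a + u / 2) - side a u (a + u / 2) / side a u c * τ c) := by
    rw [side_mid, hτm]; norm_num
  have e1 := (hcont1.continuousAt (x := a + u / 2)).eventually (lt_mem_nhds v1)
  have e2 := (hcont2.continuousAt (x := a + u / 2)).eventually (lt_mem_nhds v2)
  filter_upwards [e1, e2] with w h1 h2 h0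
  have := convex_three hU hc hb ha h0 h1.le h2.le (by ring)
  convert this using 1
  apply Complex.ext
  · simp only [Complex.add_re, Complex.smul_re, smul_eq_mul]
    have key : w.re - a.re = side a u w / side a u c * (c.re - a.re) +
        (τ w - side a u w / side a u c * τ c) * u.re := by
      have hw : w.re - a.re = τ w * u.re - side a u w * u.im := by
        simp only [hτ, side]; linear_combination (-(w.re - a.re)) * hn
      have hc' : c.re - a.re = τ c * u.re - side a u c * u.im := by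
        simp only [hτ, side]; linear_combination (-(c.re - a.re)) * hn
      rw [hw, hc']
      field_simp
      ring
    linear_combination key
  · simp only [Complex.add_im, Complex.smul_im, smul_eq_mul]
    have key : w.im - a.im = side a u w / side a u c * (c.im - a.im) +
        (τ w - side a u w / side a u c * τ c) * u.im := by
      have hw : w.im - a.im = τ w * u.im + side a u w * u.re := by
        simp only [hτ, side]; linear_combination (-(w.im - a.im)) * hn
      have hc' : c.im - a.im = τ c * u.im + side a u c * u.re := by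
        simp only [hτ, side]; linear_combination (-(c.im - a.im)) * hn
      rw [hw, hc']
      field_simp
      ring
    linear_combination key

theorem mid_interior {U : Set ℂ} (hU : Convex ℝ U) {a u : ℂ} (hu : ‖u‖ = 1) (ha : a ∈ U)
    (hb : a + u ∈ U) {b z : ℂ} (hbU : b ∈ U) (hb' : 0 < side a u b) (hzU : z ∈ U)
    (hz' : side a u z < 0) : a + u / 2 ∈ interior U := by
  rw [mem_interior_iff_mem_nhds]
  have h1 := half_nhds hU hu ha hb hbU hb'.ne'
  have h2 := half_nhds hU hu ha hb hzU hz'.ne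
  have h3 : ∀ᶠ w in nhds (a + u / 2), w ∈ U := by
    filter_upwards [h1, h2] with w h1 h2
    rcases le_total 0 (side a u w) with h | h
    · exact h1 (div_nonneg h hb'.le)
    · exact h2 (div_nonneg_of_nonpos h hz'.le)
  exact h3

/-! ### The rigid lines of a convex patch -/

theorem side_pt_ζ (m n m' n' : ℝ) : side (pt m n) ζ (pt m' n') = (m - m') * (√3 / 2) := by
  simp only [side, pt_re, pt_im, ζ_re, ζ_im]; ring

theorem side_pt_one (m n m' n' : ℝ) : side (pt m n) 1 (pt m' n') = (n' - n) * (√3 / 2) := by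
  simp only [side, pt_re, pt_im, Complex.one_re, Complex.one_im]; ring

theorem side_pt_ζ' (m n m' n' : ℝ) :
    side (pt m n) (ζ - 1) (pt m' n') = (m + n - m' - n') * (√3 / 2) := by
  simp only [side, pt_re, pt_im, Complex.sub_re, Complex.sub_im, ζ_re, ζ_im, Complex.one_re,
    Complex.one_im]
  ring

theorem norm_ζ' : ‖ζ - 1‖ = 1 := by
  rw [← ζ_sq, norm_pow, norm_ζ]; norm_num

theorem hexV_ζ (c : ℂ) : hexV c ζ = hexV c 1 := by
  have := hexV_rot c 1
  rwa [one_mul] at this

theorem hexV_ζ' (c : ℂ) : hexV c (ζ - 1) = hexV c 1 := by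
  have := hexV_rot_pow c 1 2
  rwa [one_mul, ζ_sq] at this

theorem hexV_inj {m n m' n' : ℝ} (h : hexV (pt m n) 1 = hexV (pt m' n') 1) : m = m' ∧ n = n' := by
  have key : ∀ {m n m' n' : ℝ}, hexV (pt m n) 1 = hexV (pt m' n') 1 → m ≤ m' ∧ n ≤ n' := by
    intro m n m' n' h
    have h1 : pt (m + 1) n ∈ hexV (pt m' n') 1 := by rw [← h, hexV_pt]; simp
    have h2 : pt m (n + 1) ∈ hexV (pt m' n') 1 := by rw [← h, hexV_pt]; simp
    rw [hexV_pt] at h1 h2
    simp only [mem_insert_iff, mem_singleton_iff, pt_inj] at h1 h2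
    constructor
    · rcases h1 with h | h | h | h | h | h <;> linarith [h.1]
    · rcases h2 with h | h | h | h | h | h <;> linarith [h.2]
  have h1 := key h
  have h2 := key h.symm
  exact ⟨le_antisymm h1.1 h2.1, le_antisymm h1.2 h2.2⟩

theorem three_not_le {S : Set (Set ℂ)} (h : S.encard ≤ 2) {X Y Z : Set ℂ} (hX : X ∈ S) (hY : Y ∈ S)
    (hZ : Z ∈ S) (h1 : X ≠ Y) (h2 : X ≠ Z) (h3 : Y ≠ Z) : False := by
  have hsub : ({X, Y, Z} : Set (Set ℂ)) ⊆ S := by
    rintro W (rfl | rfl | hW)
    · exact hX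
    · exact hY
    · rw [mem_singleton_iff] at hW; rw [hW]; exact hZ
  have hle := Set.encard_le_encard hsub
  rw [Set.encard_insert_of_notMem (by simp [h1, h2]), Set.encard_pair h3] at hle
  have := hle.trans h
  norm_num at this

theorem mem_union {B : Set (Set ℂ)} {V : Set ℂ} (hV : V ∈ B) {z : ℂ} (hz : z ∈ V) : z ∈ Supp B :=
  mem_biUnion hV (mem_reg hz)

theorem isHex_one (c : ℂ) : IsHex (hexV c 1) := ⟨c, 1, by simp, rfl⟩

theorem triV_one (m n : ℝ) : triV (pt m n) 1 = {pt m n, pt (m + 1) n, pt m (n + 1)} := by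
  unfold triV
  simp only [pt]
  push_cast
  congr 1
  congr 1
  · ring
  · congr 1
    ring

theorem triV_neg_one (m n : ℝ) : triV (pt m n) (-1) = {pt m n, pt (m - 1) n, pt m (n - 1)} := by
  unfold triV
  simp only [pt]
  push_cast
  congr 1
  congr 1
  · ring
  · congr 1
    ring

section Rigid

variable {B : Set (Set ℂ)} (hfin : B.Finite) (ht : ∀ V ∈ B, IsTri V ∨ IsHex V)
  (hee : ∀ V ∈ B, ∀ W ∈ B, V ≠ W → EdgeToEdge V W)
  (hadm : ∀ V ∈ B, ∀ p ∈ V, {W ∈ B | IsTri W ∧ p ∈ W}.encard ≤ 2 ∧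
    {W ∈ B | IsHex W ∧ p ∈ W}.encard ≤ 2)
  (hconv : Convex ℝ (Supp B))

include hfin ht hee hadm hconv

theorem stepA {m n : ℝ} (h1 : hexV (pt (m - 1) (n + 1)) 1 ∈ B) (h2 : hexV (pt m (n - 1)) 1 ∈ B) :
    triV (pt m n) 1 ∈ B ∧ triV (pt (m + 1) n) (-1) ∈ B := by
  have h3 := sq3_pos
  have hp1 : pt m n ∈ hexV (pt (m - 1) (n + 1)) 1 := by
    rw [hexV_pt]; simp [pt_inj]
  have hp2 : pt m n ∈ hexV (pt m (n - 1)) 1 := by
    rw [hexV_pt]; simp [pt_inj]
  have hq1 : pt m (n + 1) ∈ hexV (pt (m - 1) (n + 1)) 1 := by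
    rw [hexV_pt]; simp [pt_inj]
  have hq2 : pt (m + 1) (n - 1) ∈ hexV (pt m (n - 1)) 1 := by
    rw [hexV_pt]; simp [pt_inj]
  have hq3 : pt (m - 1) n ∈ hexV (pt m (n - 1)) 1 := by
    rw [hexV_pt]; simp [pt_inj]
  have hq4 : pt m (n - 2) ∈ hexV (pt m (n - 1)) 1 := by
    rw [hexV_pt]; simp [pt_inj]; ring
  have hint : pt m n ∈ interior (Supp B) := by
    have ha : pt m (n - 1 / 2) ∈ Supp B := by
      have := hconv (mem_union h2 hp2) (mem_union h2 hq4) (a := 3 / 4) (b := 1 / 4) (by norm_num)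
        (by norm_num) (by norm_num)
      convert this using 1
      simp only [Complex.real_smul, pt]; push_cast; ring
    have hb : pt m (n - 1 / 2) + ζ ∈ Supp B := by
      have := hconv (mem_union h1 hp1) (mem_union h1 hq1) (a := 1 / 2) (b := 1 / 2) (by norm_num)
        (by norm_num) (by norm_num)
      convert this using 1
      simp only [Complex.real_smul, pt]; push_cast; ring
    have := mid_interior hconv norm_ζ ha hb (mem_union h2 hq3)
      (by rw [side_pt_ζ]; have : m - (m - 1) = 1 := by ring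
          rw [this]; positivity)
      (mem_union h2 hq2)
      (by rw [side_pt_ζ]; have : m - (m + 1) = -1 := by ring
          rw [this]; linarith)
    convert this using 1
    simp only [pt]; push_cast; ring
  have hthird : hexV (pt (m + 1) n) 1 ∉ B := by
    intro h
    have hp3 : pt m n ∈ hexV (pt (m + 1) n) 1 := by
      rw [hexV_pt]; simp [pt_inj]
    refine three_not_le (hadm _ h1 _ hp1).2 (X := hexV (pt (m - 1) (n + 1)) 1)
      (Y := hexV (pt m (n - 1)) 1) (Z := hexV (pt (m + 1) n) 1) ⟨h1, isHex_one _, hp1⟩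
      ⟨h2, isHex_one _, hp2⟩ ⟨h, isHex_one _, hp3⟩ ?_ ?_ ?_
    · intro h; linarith [(hexV_inj h).1]
    · intro h; linarith [(hexV_inj h).1]
    · intro h; linarith [(hexV_inj h).1]
  constructor
  · have hm : pt m n + ζ / 2 ∈ interior (Supp B) := by
      apply hconv.openSegment_interior_self_subset_interior hint (mem_union h1 hq1)
      refine ⟨1 / 2, 1 / 2, by norm_num, by norm_num, by norm_num, ?_⟩
      simp only [Complex.real_smul, pt]; push_cast; ring
    have hV : hexV (pt (m - 1) (n + 1)) 1 = hexV (pt m n + ζ * ζ) ζ := by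
      rw [hexV_ζ]
      congr 1
      have : ζ * ζ = ζ - 1 := by rw [← ζ_sq]; ring
      rw [this]; simp only [pt]; push_cast; ring
    rcases neighbour hfin ht hee norm_ζ h1 (Or.inr hV) hm with h | h
    · have := triV_rot2 (pt m n) 1
      rw [one_mul] at this
      rw [this] at h; exact h
    · exfalso
      apply hthird
      rw [hexV_ζ] at h
      convert h using 2
      have : ζ * ζ = ζ - 1 := by rw [← ζ_sq]; ring
      rw [this]; simp only [pt]; push_cast; ring
  · have hm : pt (m + 1) (n - 1) + (ζ - 1) / 2 ∈ interior (Supp B) := by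
      apply hconv.openSegment_interior_self_subset_interior hint (mem_union h2 hq2)
      refine ⟨1 / 2, 1 / 2, by norm_num, by norm_num, by norm_num, ?_⟩
      simp only [Complex.real_smul, pt]; push_cast; ring
    have hz : (ζ - 1) * ζ = -1 := by
      have : (ζ - 1) * ζ = ζ ^ 2 - ζ := by ring
      rw [this, ζ_sq]; ring
    have hV : hexV (pt m (n - 1)) 1 = hexV (pt (m + 1) (n - 1) + (ζ - 1) * ζ) (ζ - 1) := by
      rw [hexV_ζ', hz]
      congr 1
      simp only [pt]; push_cast; ring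
    rcases neighbour hfin ht hee norm_ζ' h2 (Or.inr hV) hm with h | h
    · have := triV_rot1 (pt (m + 1) n) (-1)
      convert h using 1
      rw [← this]
      congr 1
      · simp only [pt]; push_cast; ring
      · ring
    · exfalso
      apply hthird
      rw [hexV_ζ', hz] at h
      convert h using 2
      simp only [pt]; push_cast; ring

theorem stepB {m n : ℝ} (h1 : triV (pt m n) 1 ∈ B) (h2 : triV (pt (m + 1) n) (-1) ∈ B)
    (hcone : ¬ ∀ z ∈ Supp B, cM z ≤ m + 1 ∧ cM z + cN z ≤ m + 1 + n) :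
    hexV (pt (m + 1) (n + 1)) 1 ∈ B ∧ hexV (pt (m + 2) (n - 1)) 1 ∈ B := by
  have h3 := sq3_pos
  have hp1 : pt (m + 1) n ∈ triV (pt m n) 1 := by rw [triV_one]; simp
  have hp2 : pt (m + 1) n ∈ triV (pt (m + 1) n) (-1) := by rw [triV_neg_one]; simp
  have hq1 : pt m (n + 1) ∈ triV (pt m n) 1 := by rw [triV_one]; simp
  have hq0 : pt m n ∈ triV (pt m n) 1 := by rw [triV_one]; simp
  have hq2 : pt (m + 1) (n - 1) ∈ triV (pt (m + 1) n) (-1) := by rw [triV_neg_one]; simp
  have t1 : IsTri (triV (pt m n) 1) := ⟨_, 1, by simp, rfl⟩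
  have t2 : IsTri (triV (pt (m + 1) n) (-1)) := ⟨_, -1, by simp, rfl⟩
  have hne12 : triV (pt m n) 1 ≠ triV (pt (m + 1) n) (-1) := by
    intro h
    rw [h, triV_neg_one] at hq1
    simp only [mem_insert_iff, mem_singleton_iff, pt_inj] at hq1
    rcases hq1 with h | h | h <;> linarith [h.2]
  have hz : (ζ - 1) * ζ = -1 := by
    have : (ζ - 1) * ζ = ζ ^ 2 - ζ := by ring
    rw [this, ζ_sq]; ring
  -- crossing the upper side
  have up : pt (m + 1) n + (ζ - 1) / 2 ∈ interior (Supp B) → hexV (pt (m + 1) (n + 1)) 1 ∈ B := by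
    intro hm
    have hV : triV (pt m n) 1 = triV (pt (m + 1) n) (ζ - 1) := by
      have := triV_rot1 (pt m n) 1
      rw [one_mul] at this
      rw [← this]
      congr 1
      simp only [pt]; push_cast; ring
    rcases neighbour hfin ht hee norm_ζ' h1 (Or.inl hV) hm with h | h
    · exfalso
      have hT : triV (pt (m + 1) n + (ζ - 1)) (-(ζ - 1)) =
          {pt m (n + 1), pt (m + 1) n, pt (m + 1) (n + 1)} := by
        unfold triV
        have e : -(ζ - 1) * ζ = 1 := by rw [neg_mul, hz]; ring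
        rw [e]
        simp only [pt]
        push_cast
        congr 1
        · ring
        congr 1
        · ring
        · congr 1
          ring
      have hq3 : pt (m + 1) (n + 1) ∈ triV (pt (m + 1) n + (ζ - 1)) (-(ζ - 1)) := by
        rw [hT]; simp
      refine three_not_le (hadm _ h1 _ hp1).1 (X := triV (pt m n) 1)
        (Y := triV (pt (m + 1) n) (-1)) (Z := triV (pt (m + 1) n + (ζ - 1)) (-(ζ - 1)))
        ⟨h1, t1, hp1⟩ ⟨h2, t2, hp2⟩ ⟨h, ⟨_, _, by rw [norm_neg]; exact norm_ζ', rfl⟩, ?_⟩ hne12 ?_ ?_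
      · rw [hT]; simp
      · intro h
        rw [← h, triV_one] at hq3
        simp only [mem_insert_iff, mem_singleton_iff, pt_inj] at hq3
        rcases hq3 with h | h | h <;> linarith [h.2, h.1]
      · intro h
        rw [← h, triV_neg_one] at hq3
        simp only [mem_insert_iff, mem_singleton_iff, pt_inj] at hq3
        rcases hq3 with h | h | h <;> linarith [h.2, h.1]
    · rw [hexV_ζ', hz] at h
      convert h using 2
      simp only [pt]; push_cast; ring
  -- crossing the lower side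
  have low : pt (m + 1) (n - 1) + ζ / 2 ∈ interior (Supp B) → hexV (pt (m + 2) (n - 1)) 1 ∈ B := by
    intro hm
    have hV : triV (pt (m + 1) n) (-1) = triV (pt (m + 1) (n - 1)) ζ := by
      have := triV_rot2 (pt (m + 1) n) (-1)
      rw [← this]
      congr 1
      · simp only [pt]; push_cast; ring
      · ring
    rcases neighbour hfin ht hee norm_ζ h2 (Or.inl hV) hm with h | h
    · exfalso
      have hT : triV (pt (m + 1) (n - 1) + ζ) (-ζ) =
          {pt (m + 1) n, pt (m + 1) (n - 1), pt (m + 2) (n - 1)} := by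
        unfold triV
        have e : -ζ * ζ = 1 - ζ := by rw [neg_mul, ← pow_two, ζ_sq]; ring
        rw [e]
        simp only [pt]
        push_cast
        congr 1
        · ring
        congr 1
        · ring
        · congr 1
          ring
      have hq3 : pt (m + 2) (n - 1) ∈ triV (pt (m + 1) (n - 1) + ζ) (-ζ) := by
        rw [hT]; simp
      refine three_not_le (hadm _ h1 _ hp1).1 (X := triV (pt m n) 1)
        (Y := triV (pt (m + 1) n) (-1)) (Z := triV (pt (m + 1) (n - 1) + ζ) (-ζ))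
        ⟨h1, t1, hp1⟩ ⟨h2, t2, hp2⟩ ⟨h, ⟨_, _, by rw [norm_neg]; exact norm_ζ, rfl⟩, ?_⟩ hne12 ?_ ?_
      · rw [hT]; simp
      · intro h
        rw [← h, triV_one] at hq3
        simp only [mem_insert_iff, mem_singleton_iff, pt_inj] at hq3
        rcases hq3 with h | h | h <;> linarith [h.2, h.1]
      · intro h
        rw [← h, triV_neg_one] at hq3
        simp only [mem_insert_iff, mem_singleton_iff, pt_inj] at hq3
        rcases hq3 with h | h | h <;> linarith [h.2, h.1]
    · rw [hexV_ζ] at h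
      convert h using 2
      have : ζ * ζ = ζ - 1 := by rw [← ζ_sq]; ring
      rw [this]
      simp only [pt]; push_cast; ring
  -- one further point on the line gives both
  have both : pt (m + 2) n ∈ Supp B →
      hexV (pt (m + 1) (n + 1)) 1 ∈ B ∧ hexV (pt (m + 2) (n - 1)) 1 ∈ B := by
    intro hr
    have hint : pt (m + 1) n ∈ interior (Supp B) := by
      have ha : pt (m + 1 / 2) n ∈ Supp B := by
        have := hconv (mem_union h1 hq0) (mem_union h1 hp1) (a := 1 / 2) (b := 1 / 2) (by norm_num)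
          (by norm_num) (by norm_num)
        convert this using 1
        simp only [Complex.real_smul, pt]; push_cast; ring
      have hb : pt (m + 1 / 2) n + 1 ∈ Supp B := by
        have := hconv (mem_union h1 hp1) hr (a := 1 / 2) (b := 1 / 2) (by norm_num)
          (by norm_num) (by norm_num)
        convert this using 1
        simp only [Complex.real_smul, pt]; push_cast; ring
      have := mid_interior hconv (u := 1) (by simp) ha hb (mem_union h1 hq1)
        (by rw [side_pt_one]; have : n + 1 - n = 1 := by ring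
            rw [this]; positivity)
        (mem_union h2 hq2)
        (by rw [side_pt_one]; have : n - 1 - n = -1 := by ring
            rw [this]; linarith)
      convert this using 1
      simp only [pt]; push_cast; ring
    constructor
    · apply up
      apply hconv.openSegment_interior_self_subset_interior hint (mem_union h1 hq1)
      refine ⟨1 / 2, 1 / 2, by norm_num, by norm_num, by norm_num, ?_⟩
      simp only [Complex.real_smul, pt]; push_cast; ring
    · apply low
      apply hconv.openSegment_interior_self_subset_interior hint (mem_union h2 hq2)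
      refine ⟨1 / 2, 1 / 2, by norm_num, by norm_num, by norm_num, ?_⟩
      simp only [Complex.real_smul, pt]; push_cast; ring
  push Not at hcone
  obtain ⟨z, hzU, hz'⟩ := hcone
  by_cases hM : cM z ≤ m + 1
  · have hMN := hz' hM
    have hH : hexV (pt (m + 1) (n + 1)) 1 ∈ B := by
      apply up
      have e : pt (m + 1) n + (ζ - 1) = pt m (n + 1) := by simp only [pt]; push_cast; ring
      refine mid_interior hconv norm_ζ' (mem_union h1 hp1) ?_ (mem_union h1 hq0)
        ?_ hzU ?_
      · rw [e]; exact mem_union h1 hq1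
      · rw [side_pt_ζ']
        have : m + 1 + n - m - n = 1 := by ring
        rw [this]; positivity
      · rw [← pt_cM_cN z, side_pt_ζ']
        nlinarith
    apply both
    apply mem_union hH
    rw [hexV_pt]; simp [pt_inj]
    ring
  · push Not at hM
    have hH : hexV (pt (m + 2) (n - 1)) 1 ∈ B := by
      apply low
      have e : pt (m + 1) (n - 1) + ζ = pt (m + 1) n := by simp only [pt]; push_cast; ring
      refine mid_interior hconv norm_ζ (mem_union h2 hq2) ?_ (mem_union h1 hq0)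
        ?_ hzU ?_
      · rw [e]; exact mem_union h1 hp1
      · rw [side_pt_ζ]
        have : m + 1 - m = 1 := by ring
        rw [this]; positivity
      · rw [← pt_cM_cN z, side_pt_ζ]
        nlinarith
    apply both
    apply mem_union hH
    rw [hexV_pt]; simp [pt_inj]

theorem line {m n : ℝ} (h1 : hexV (pt (m - 1) (n + 1)) 1 ∈ B) (h2 : hexV (pt m (n - 1)) 1 ∈ B) :
    ∃ k : ℕ, pt (m + 2 * k + 1) n ∈ Supp B ∧
      ∀ z ∈ Supp B, cM z ≤ m + 2 * k + 1 ∧ cM z + cN z ≤ m + 2 * k + 1 + n := by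
  by_contra hcon
  push Not at hcon
  have key : ∀ k : ℕ, hexV (pt (m + 2 * k - 1) (n + 1)) 1 ∈ B ∧ hexV (pt (m + 2 * k) (n - 1)) 1 ∈ B := by
    intro k
    induction k with
    | zero => simpa using ⟨h1, h2⟩
    | succ k ih =>
      obtain ⟨i1, i2⟩ := stepA hfin ht hee hadm hconv ih.1 ih.2
      have hc := hcon k (mem_union i1 (by rw [triV_one]; simp))
      have := stepB hfin ht hee hadm hconv i1 i2 (by
        intro h
        obtain ⟨z, hz, h'⟩ := hc
        have := h z hz
        linarith [h' this.1, this.2])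
      push_cast
      convert this using 3
      · congr 1; ring
      · congr 1; ring
  have hcomp := compact_union hfin ht
  have hcont : Continuous cM := LinearMap.continuous_of_finiteDimensional _
  obtain ⟨C, hC⟩ := (hcomp.image hcont).bddAbove
  obtain ⟨k, hk⟩ := exists_nat_gt (C - m)
  have hmem : pt (m + 2 * k) n ∈ Supp B := by
    apply mem_union (key k).2
    rw [hexV_pt]; simp [pt_inj]
  have := hC ⟨_, hmem, rfl⟩
  rw [cM_pt] at this
  have hk0 : (0 : ℝ) ≤ k := Nat.cast_nonneg k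
  linarith

theorem no_column (h0 : hexV (pt 0 0) 1 ∈ B) (h1 : hexV (pt (-1) 2) 1 ∈ B)
    (h2 : hexV (pt 1 (-2)) 1 ∈ B) : False := by
  obtain ⟨k, hk, hck⟩ := line hfin ht hee hadm hconv (m := 0) (n := 1)
    (by convert h1 using 3; all_goals norm_num) (by convert h0 using 3; norm_num)
  obtain ⟨l, hl, hcl⟩ := line hfin ht hee hadm hconv (m := 1) (n := -1)
    (by convert h0 using 3; all_goals norm_num) (by convert h2 using 3; norm_num)
  have a1 := (hck _ hl).1
  have a2 := (hcl _ hk).2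
  rw [cM_pt] at a1
  rw [cM_pt, cN_pt] at a2
  linarith

end Rigid

/-! ### Regions of the tiles in lattice coordinates -/

theorem hull_bound (f : ℂ →ₗ[ℝ] ℝ) {V : Set ℂ} {C : ℝ} (h : ∀ v ∈ V, f v ≤ C) {z : ℂ}
    (hz : z ∈ Reg V) : f z ≤ C :=
  convexHull_min (t := {z | f z ≤ C}) (fun v hv => h v hv) (convex_halfSpace_le f.isLinear C) hz

theorem hex_le {m n : ℝ} {z : ℂ} (hz : z ∈ Reg (hexV (pt m n) 1)) :
    (m - 1 ≤ cM z ∧ cM z ≤ m + 1) ∧ (n - 1 ≤ cN z ∧ cN z ≤ n + 1) ∧
      (m + n - 1 ≤ cM z + cN z ∧ cM z + cN z ≤ m + n + 1) := by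
  rw [hexV_pt] at hz
  have h1 := hull_bound cM (C := m + 1) (by
    rintro v (rfl | rfl | rfl | rfl | rfl | hv) <;> (try rw [mem_singleton_iff] at hv) <;>
      (try rw [hv]) <;> rw [cM_pt] <;> linarith) hz
  have h2 := hull_bound cN (C := n + 1) (by
    rintro v (rfl | rfl | rfl | rfl | rfl | hv) <;> (try rw [mem_singleton_iff] at hv) <;>
      (try rw [hv]) <;> rw [cN_pt] <;> linarith) hz
  have h3 := hull_bound (-cM) (C := -(m - 1)) (by
    rintro v (rfl | rfl | rfl | rfl | rfl | hv) <;> (try rw [mem_singleton_iff] at hv) <;>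
      (try rw [hv]) <;> rw [LinearMap.neg_apply, cM_pt] <;> linarith) hz
  have h4 := hull_bound (-cN) (C := -(n - 1)) (by
    rintro v (rfl | rfl | rfl | rfl | rfl | hv) <;> (try rw [mem_singleton_iff] at hv) <;>
      (try rw [hv]) <;> rw [LinearMap.neg_apply, cN_pt] <;> linarith) hz
  have h5 := hull_bound (cM + cN) (C := m + n + 1) (by
    rintro v (rfl | rfl | rfl | rfl | rfl | hv) <;> (try rw [mem_singleton_iff] at hv) <;>
      (try rw [hv]) <;> rw [LinearMap.add_apply, cM_pt, cN_pt] <;> linarith) hz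
  have h6 := hull_bound (-(cM + cN)) (C := -(m + n - 1)) (by
    rintro v (rfl | rfl | rfl | rfl | rfl | hv) <;> (try rw [mem_singleton_iff] at hv) <;>
      (try rw [hv]) <;> rw [LinearMap.neg_apply, LinearMap.add_apply, cM_pt, cN_pt] <;> linarith) hz
  simp only [LinearMap.neg_apply, LinearMap.add_apply] at h3 h4 h5 h6
  refine ⟨⟨?_, ?_⟩, ⟨?_, ?_⟩, ?_, ?_⟩ <;> linarith

theorem up_le {m n : ℝ} {z : ℂ} (hz : z ∈ Reg (triV (pt m n) ζ)) :
    cM z ≤ m ∧ cN z ≤ n + 1 ∧ m + n ≤ cM z + cN z := by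
  rw [triV_up] at hz
  have h1 := hull_bound cM (C := m) (by
    rintro v (rfl | rfl | hv) <;> (try rw [mem_singleton_iff] at hv) <;>
      (try rw [hv]) <;> rw [cM_pt] <;> linarith) hz
  have h2 := hull_bound cN (C := n + 1) (by
    rintro v (rfl | rfl | hv) <;> (try rw [mem_singleton_iff] at hv) <;>
      (try rw [hv]) <;> rw [cN_pt] <;> linarith) hz
  have h6 := hull_bound (-(cM + cN)) (C := -(m + n)) (by
    rintro v (rfl | rfl | hv) <;> (try rw [mem_singleton_iff] at hv) <;>
      (try rw [hv]) <;> rw [LinearMap.neg_apply, LinearMap.add_apply, cM_pt, cN_pt] <;> linarith) hz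
  simp only [LinearMap.neg_apply, LinearMap.add_apply] at h6
  refine ⟨?_, ?_, ?_⟩ <;> linarith

theorem dn_le {m n : ℝ} {z : ℂ} (hz : z ∈ Reg (triV (pt m n) (-ζ))) :
    m ≤ cM z ∧ n - 1 ≤ cN z ∧ cM z + cN z ≤ m + n := by
  rw [triV_down] at hz
  have h1 := hull_bound (-cM) (C := -m) (by
    rintro v (rfl | rfl | hv) <;> (try rw [mem_singleton_iff] at hv) <;>
      (try rw [hv]) <;> rw [LinearMap.neg_apply, cM_pt] <;> linarith) hz
  have h2 := hull_bound (-cN) (C := -(n - 1)) (by
    rintro v (rfl | rfl | hv) <;> (try rw [mem_singleton_iff] at hv) <;>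
      (try rw [hv]) <;> rw [LinearMap.neg_apply, cN_pt] <;> linarith) hz
  have h6 := hull_bound (cM + cN) (C := m + n) (by
    rintro v (rfl | rfl | hv) <;> (try rw [mem_singleton_iff] at hv) <;>
      (try rw [hv]) <;> rw [LinearMap.add_apply, cM_pt, cN_pt] <;> linarith) hz
  simp only [LinearMap.neg_apply, LinearMap.add_apply] at h1 h2 h6
  refine ⟨?_, ?_, ?_⟩ <;> linarith

theorem convex_reg (V : Set ℂ) : Convex ℝ (Reg V) := convex_convexHull ℝ V

theorem comb_pt (s t a b c d : ℝ) : s • pt a b + t • pt c d = pt (s * a + t * c) (s * b + t * d) := by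
  simp only [Complex.real_smul, pt]; push_cast; ring

theorem mem_up {m n : ℝ} {z : ℂ} (h1 : cM z ≤ m) (h2 : cN z ≤ n + 1) (h3 : m + n ≤ cM z + cN z) :
    z ∈ Reg (triV (pt m n) ζ) := by
  have := convex_three (convex_reg (triV (pt m n) ζ)) (x := pt m n) (y := pt m (n + 1))
    (z := pt (m - 1) (n + 1)) (mem_reg (by rw [triV_up]; simp))
    (mem_reg (by rw [triV_up]; simp)) (mem_reg (by rw [triV_up]; simp))
    (α := n + 1 - cN z) (β := cM z + cN z - m - n) (γ := m - cM z) (by linarith) (by linarith)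
    (by linarith) (by ring)
  convert this using 1
  apply ext_pt
  · simp only [map_add, map_smul, cM_pt, smul_eq_mul]; ring
  · simp only [map_add, map_smul, cN_pt, smul_eq_mul]; ring

theorem mem_dn {m n : ℝ} {z : ℂ} (h1 : m ≤ cM z) (h2 : n - 1 ≤ cN z) (h3 : cM z + cN z ≤ m + n) :
    z ∈ Reg (triV (pt m n) (-ζ)) := by
  have := convex_three (convex_reg (triV (pt m n) (-ζ))) (x := pt m n) (y := pt m (n - 1))
    (z := pt (m + 1) (n - 1)) (mem_reg (by rw [triV_down]; simp))
    (mem_reg (by rw [triV_down]; simp)) (mem_reg (by rw [triV_down]; simp))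
    (α := cN z - (n - 1)) (β := m + n - cM z - cN z) (γ := cM z - m) (by linarith) (by linarith)
    (by linarith) (by ring)
  convert this using 1
  apply ext_pt
  · simp only [map_add, map_smul, cM_pt, smul_eq_mul]; ring
  · simp only [map_add, map_smul, cN_pt, smul_eq_mul]; ring

theorem mem_hex {m n : ℝ} {z : ℂ} (h1 : m - 1 ≤ cM z) (h2 : cM z ≤ m + 1) (h3 : n - 1 ≤ cN z)
    (h4 : cN z ≤ n + 1) (h5 : m + n - 1 ≤ cM z + cN z) (h6 : cM z + cN z ≤ m + n + 1) :
    z ∈ Reg (hexV (pt m n) 1) := by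
  have hc := convex_reg (hexV (pt m n) 1)
  have v0 : pt (m + 1) n ∈ Reg (hexV (pt m n) 1) := mem_reg (by rw [hexV_pt]; simp)
  have v1 : pt m (n + 1) ∈ Reg (hexV (pt m n) 1) := mem_reg (by rw [hexV_pt]; simp)
  have v2 : pt (m - 1) (n + 1) ∈ Reg (hexV (pt m n) 1) := mem_reg (by rw [hexV_pt]; simp)
  have v3 : pt (m - 1) n ∈ Reg (hexV (pt m n) 1) := mem_reg (by rw [hexV_pt]; simp)
  have v4 : pt m (n - 1) ∈ Reg (hexV (pt m n) 1) := mem_reg (by rw [hexV_pt]; simp)
  have v5 : pt (m + 1) (n - 1) ∈ Reg (hexV (pt m n) 1) := mem_reg (by rw [hexV_pt]; simp)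
  rcases le_total n (cN z) with hn | hn
  · -- upper trapezoid
    set t := cN z - n with ht
    have hL := hc v3 v2 (a := 1 - t) (b := t) (by linarith) (by linarith) (by ring)
    have hR := hc v0 v1 (a := 1 - t) (b := t) (by linarith) (by linarith) (by ring)
    have hpos : 0 < 2 - t := by linarith
    have := hc hL hR (a := 1 - (cM z - m + 1) / (2 - t)) (b := (cM z - m + 1) / (2 - t))
      (by rw [sub_nonneg, div_le_one hpos]; linarith) (div_nonneg (by linarith) hpos.le) (by ring)
    convert this using 1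
    apply ext_pt
    · simp only [map_add, map_smul, cM_pt, smul_eq_mul]
      field_simp
      ring
    · simp only [map_add, map_smul, cN_pt, smul_eq_mul]
      field_simp
      ring
  · set t := n - cN z with ht
    have hL := hc v3 v4 (a := 1 - t) (b := t) (by linarith) (by linarith) (by ring)
    have hR := hc v0 v5 (a := 1 - t) (b := t) (by linarith) (by linarith) (by ring)
    have hpos : 0 < 2 - t := by linarith
    have := hc hL hR (a := 1 - (cM z - m + 1 - t) / (2 - t)) (b := (cM z - m + 1 - t) / (2 - t))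
      (by rw [sub_nonneg, div_le_one hpos]; linarith) (div_nonneg (by linarith) hpos.le) (by ring)
    convert this using 1
    apply ext_pt
    · simp only [map_add, map_smul, cM_pt, smul_eq_mul]
      field_simp
      ring
    · simp only [map_add, map_smul, cN_pt, smul_eq_mul]
      field_simp
      ring

/-! ### The tiling -/

/-- The hexagon `(i, j)` of the tiling. -/
noncomputable def hexT (i j : ℤ) : Set ℂ := hexV (pt (2 * i - j) (2 * j)) 1

/-- The triangle above the right vertex of the hexagon `(i, j)`. -/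
noncomputable def upT (i j : ℤ) : Set ℂ := triV (pt (2 * i - j + 1) (2 * j)) ζ

/-- The triangle below the right vertex of the hexagon `(i, j)`. -/
noncomputable def dnT (i j : ℤ) : Set ℂ := triV (pt (2 * i - j + 1) (2 * j)) (-ζ)

/-- The tiling. -/
noncomputable def τ : Set (Set ℂ) := {V | ∃ i j : ℤ, V = hexT i j ∨ V = upT i j ∨ V = dnT i j}

theorem ee_symm {V W : Set ℂ} (h : EdgeToEdge V W) : EdgeToEdge W V := by
  rcases h with h | ⟨v, h1, h2, h⟩ | ⟨v, w, h1, h2, h3, h4, h5, h⟩
  · left; rw [inter_comm]; exact h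
  · right; left; exact ⟨v, h2, h1, by rw [inter_comm]; exact h⟩
  · right; right; exact ⟨v, w, h3, h4, h1, h2, h5, by rw [inter_comm]; exact h⟩

theorem ee_empty {V W : Set ℂ} (h : ∀ z, z ∈ Reg V → z ∈ Reg W → False) : EdgeToEdge V W := by
  left
  ext z
  simp only [mem_inter_iff, mem_empty_iff_false, iff_false]
  rintro ⟨h1, h2⟩; exact h z h1 h2

theorem ee_vertex {V W : Set ℂ} (m n : ℝ) (hV : pt m n ∈ V) (hW : pt m n ∈ W)
    (h : ∀ z, z ∈ Reg V → z ∈ Reg W → cM z = m ∧ cN z = n) : EdgeToEdge V W := by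
  right; left
  refine ⟨pt m n, hV, hW, ?_⟩
  ext z
  simp only [mem_inter_iff, mem_singleton_iff]
  constructor
  · rintro ⟨h1, h2⟩
    obtain ⟨h3, h4⟩ := h z h1 h2
    apply ext_pt
    · rw [h3, cM_pt]
    · rw [h4, cN_pt]
  · rintro rfl
    exact ⟨mem_reg hV, mem_reg hW⟩

theorem ee_side {V W : Set ℂ} (v w : ℂ) (hV : v ∈ V) (hW : v ∈ W) (hV' : w ∈ V) (hW' : w ∈ W)
    (hd : dist v w = 1) (h : ∀ z, z ∈ Reg V → z ∈ Reg W → z ∈ segment ℝ v w) : EdgeToEdge V W := by
  right; right
  refine ⟨v, w, hV, hV', hW, hW', hd, ?_⟩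
  apply Subset.antisymm
  · rintro z ⟨h1, h2⟩; exact h z h1 h2
  · intro z hz
    exact ⟨(convex_reg V).segment_subset (mem_reg hV) (mem_reg hV') hz,
      (convex_reg W).segment_subset (mem_reg hW) (mem_reg hW') hz⟩

theorem ee_side1 {V W : Set ℂ} (m n : ℝ) (hV : pt m n ∈ V) (hW : pt m n ∈ W) (hV' : pt (m + 1) n ∈ V)
    (hW' : pt (m + 1) n ∈ W)
    (h : ∀ z, z ∈ Reg V → z ∈ Reg W → cN z = n ∧ m ≤ cM z ∧ cM z ≤ m + 1) : EdgeToEdge V W := by
  refine ee_side (pt m n) (pt (m + 1) n) hV hW hV' hW' ?_ ?_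
  · have : pt m n - pt (m + 1) n = -1 := by simp only [pt]; push_cast; ring
    rw [dist_eq_norm, this, norm_neg]; simp
  · intro z h1 h2
    obtain ⟨a, b, c⟩ := h z h1 h2
    refine ⟨1 - (cM z - m), cM z - m, by linarith, by linarith, by ring, ?_⟩
    rw [comb_pt]
    apply ext_pt
    · rw [cM_pt]; ring
    · rw [cN_pt, a]; ring

theorem ee_side2 {V W : Set ℂ} (m n : ℝ) (hV : pt m n ∈ V) (hW : pt m n ∈ W) (hV' : pt m (n + 1) ∈ V)
    (hW' : pt m (n + 1) ∈ W)
    (h : ∀ z, z ∈ Reg V → z ∈ Reg W → cM z = m ∧ n ≤ cN z ∧ cN z ≤ n + 1) : EdgeToEdge V W := by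
  refine ee_side (pt m n) (pt m (n + 1)) hV hW hV' hW' ?_ ?_
  · have : pt m n - pt m (n + 1) = -ζ := by simp only [pt]; push_cast; ring
    rw [dist_eq_norm, this, norm_neg, norm_ζ]
  · intro z h1 h2
    obtain ⟨a, b, c⟩ := h z h1 h2
    refine ⟨1 - (cN z - n), cN z - n, by linarith, by linarith, by ring, ?_⟩
    rw [comb_pt]
    apply ext_pt
    · rw [cM_pt, a]; ring
    · rw [cN_pt]; ring

theorem ee_side3 {V W : Set ℂ} (m n : ℝ) (hV : pt m n ∈ V) (hW : pt m n ∈ W)
    (hV' : pt (m + 1) (n - 1) ∈ V) (hW' : pt (m + 1) (n - 1) ∈ W)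
    (h : ∀ z, z ∈ Reg V → z ∈ Reg W → cM z + cN z = m + n ∧ m ≤ cM z ∧ cM z ≤ m + 1) :
    EdgeToEdge V W := by
  refine ee_side (pt m n) (pt (m + 1) (n - 1)) hV hW hV' hW' ?_ ?_
  · have : pt m n - pt (m + 1) (n - 1) = ζ - 1 := by simp only [pt]; push_cast; ring
    rw [dist_eq_norm, this, norm_ζ']
  · intro z h1 h2
    obtain ⟨a, b, c⟩ := h z h1 h2
    refine ⟨1 - (cM z - m), cM z - m, by linarith, by linarith, by ring, ?_⟩
    rw [comb_pt]
    apply ext_pt
    · rw [cM_pt]; ring
    · rw [cN_pt]; linear_combination -a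

/-- Casting an inequality between integers. -/
theorem cast_le {a b : ℤ} (h : (a : ℝ) ≤ b) : a ≤ b := by exact_mod_cast h

theorem ee_hh {i j i' j' : ℤ} (hne : ¬ (i = i' ∧ j = j')) : EdgeToEdge (hexT i j) (hexT i' j') := by
  have key : ∀ {i j i' j' : ℤ}, (j < j' ∨ (j = j' ∧ i < i')) → EdgeToEdge (hexT i j) (hexT i' j') := by
    intro i j i' j' hlt
    by_cases c1 : j' = j ∧ i' = i + 1
    · obtain ⟨rfl, rfl⟩ := c1
      refine ee_vertex (2 * i - j' + 1) (2 * j') ?_ ?_ ?_
      · simp only [hexT, hexV_pt]; simp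
      · simp only [hexT, hexV_pt, mem_insert_iff, mem_singleton_iff, pt_inj]
        push_cast; right; right; right; left; constructor <;> first | trivial | ring
      · intro z h1 h2
        have a := hex_le h1
        have b := hex_le h2
        push_cast at a b
        constructor <;> linarith [a.1.1, a.1.2, a.2.1.1, a.2.1.2, a.2.2.1, a.2.2.2, b.1.1, b.1.2,
          b.2.1.1, b.2.1.2, b.2.2.1, b.2.2.2]
    by_cases c2 : j' = j + 1 ∧ i' = i
    · obtain ⟨rfl, rfl⟩ := c2
      refine ee_side1 (2 * i' - j - 1) (2 * j + 1) ?_ ?_ ?_ ?_ ?_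
      · simp only [hexT, hexV_pt]; simp
      · simp only [hexT, hexV_pt, mem_insert_iff, mem_singleton_iff, pt_inj]
        push_cast; right; right; right; right; left; constructor <;> first | trivial | ring
      · simp only [hexT, hexV_pt, mem_insert_iff, mem_singleton_iff, pt_inj]
        push_cast; right; left; constructor <;> first | trivial | ring
      · simp only [hexT, hexV_pt, mem_insert_iff, mem_singleton_iff, pt_inj]
        push_cast; right; right; right; right; right; constructor <;> first | trivial | ring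
      · intro z h1 h2
        have a := hex_le h1
        have b := hex_le h2
        push_cast at a b
        refine ⟨?_, ?_, ?_⟩ <;> linarith [a.1.1, a.1.2, a.2.1.1, a.2.1.2, a.2.2.1, a.2.2.2, b.1.1, b.1.2,
          b.2.1.1, b.2.1.2, b.2.2.1, b.2.2.2]
    apply ee_empty
    intro z h1 h2
    have a := hex_le h1
    have b := hex_le h2
    have e1 : (((2 * i' - j') - (2 * i - j) : ℤ) : ℝ) ≤ ((2 : ℤ) : ℝ) := by
      push_cast; linarith [a.1.1, a.1.2, b.1.1, b.1.2]
    have e1' : (((2 * i - j) - (2 * i' - j') : ℤ) : ℝ) ≤ ((2 : ℤ) : ℝ) := by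
      push_cast; linarith [a.1.1, a.1.2, b.1.1, b.1.2]
    have e2 : ((2 * j' - 2 * j : ℤ) : ℝ) ≤ ((2 : ℤ) : ℝ) := by
      push_cast; linarith [a.2.1.1, a.2.1.2, b.2.1.1, b.2.1.2]
    have e3 : (((2 * i' + j') - (2 * i + j) : ℤ) : ℝ) ≤ ((2 : ℤ) : ℝ) := by
      push_cast; linarith [a.2.2.1, a.2.2.2, b.2.2.1, b.2.2.2]
    have e3' : (((2 * i + j) - (2 * i' + j') : ℤ) : ℝ) ≤ ((2 : ℤ) : ℝ) := by
      push_cast; linarith [a.2.2.1, a.2.2.2, b.2.2.1, b.2.2.2]
    have := cast_le e1
    have := cast_le e1'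
    have := cast_le e2
    have := cast_le e3
    have := cast_le e3'
    omega
  by_cases h : j < j' ∨ (j = j' ∧ i < i')
  · exact key h
  · exact ee_symm (key (by omega))

theorem ee_hu (i j i' j' : ℤ) : EdgeToEdge (hexT i j) (upT i' j') := by
  by_cases c1 : j' = j ∧ i' = i
  · obtain ⟨rfl, rfl⟩ := c1
    refine ee_side3 (2 * i' - j') (2 * j' + 1) ?_ ?_ ?_ ?_ ?_
    · simp only [hexT, hexV_pt]; simp
    · simp only [upT, triV_up, mem_insert_iff, mem_singleton_iff, pt_inj]
      right; right; constructor <;> first | trivial | ring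
    · simp only [hexT, hexV_pt, mem_insert_iff, mem_singleton_iff, pt_inj]
      left; constructor <;> first | trivial | ring
    · simp only [upT, triV_up, mem_insert_iff, mem_singleton_iff, pt_inj]
      left; constructor <;> first | trivial | ring
    · intro z h1 h2
      have a := hex_le h1
      have b := up_le h2
      refine ⟨?_, ?_, ?_⟩ <;> linarith [a.1.1, a.1.2, a.2.1.1, a.2.1.2, a.2.2.1, a.2.2.2, b.1,
          b.2.1, b.2.2]
  by_cases c2 : j' = j ∧ i' = i - 1
  · obtain ⟨rfl, rfl⟩ := c2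
    refine ee_side2 (2 * i - j' - 1) (2 * j') ?_ ?_ ?_ ?_ ?_
    · simp only [hexT, hexV_pt]; simp
    · simp only [upT, triV_up, mem_insert_iff, mem_singleton_iff, pt_inj]
      push_cast; left; constructor <;> first | trivial | ring
    · simp only [hexT, hexV_pt, mem_insert_iff, mem_singleton_iff, pt_inj]
      right; right; left; constructor <;> first | trivial | ring
    · simp only [upT, triV_up, mem_insert_iff, mem_singleton_iff, pt_inj]
      push_cast; right; left; constructor <;> first | trivial | ring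
    · intro z h1 h2
      have a := hex_le h1
      have b := up_le h2
      push_cast at b
      refine ⟨?_, ?_, ?_⟩ <;> linarith [a.1.1, a.1.2, a.2.1.1, a.2.1.2, a.2.2.1, a.2.2.2, b.1,
          b.2.1, b.2.2]
  by_cases c3 : j' = j - 1 ∧ i' = i
  · obtain ⟨rfl, rfl⟩ := c3
    refine ee_vertex (2 * i' - j + 1) (2 * j - 1) ?_ ?_ ?_
    · simp only [hexT, hexV_pt]; simp
    · simp only [upT, triV_up, mem_insert_iff, mem_singleton_iff, pt_inj]
      push_cast; right; right; constructor <;> first | trivial | ring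
    · intro z h1 h2
      have a := hex_le h1
      have b := up_le h2
      push_cast at b
      constructor <;> linarith [a.1.1, a.1.2, a.2.1.1, a.2.1.2, a.2.2.1, a.2.2.2, b.1,
          b.2.1, b.2.2]
  by_cases c4 : j' = j - 1 ∧ i' = i - 1
  · obtain ⟨rfl, rfl⟩ := c4
    refine ee_vertex (2 * i - j) (2 * j - 1) ?_ ?_ ?_
    · simp only [hexT, hexV_pt]; simp
    · simp only [upT, triV_up, mem_insert_iff, mem_singleton_iff, pt_inj]
      push_cast; right; left; constructor <;> first | trivial | ring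
    · intro z h1 h2
      have a := hex_le h1
      have b := up_le h2
      push_cast at b
      constructor <;> linarith [a.1.1, a.1.2, a.2.1.1, a.2.1.2, a.2.2.1, a.2.2.2, b.1,
          b.2.1, b.2.2]
  apply ee_empty
  intro z h1 h2
  have a := hex_le h1
  have b := up_le h2
  -- hexagon: centre (2i-j, 2j); triangle: apex (2i'-j'+1, 2j')
  have e1 : ((2 * i - j - 1 : ℤ) : ℝ) ≤ ((2 * i' - j' + 1 : ℤ) : ℝ) := by
    push_cast; linarith [a.1.1, a.1.2, b.1, b.2.1, b.2.2]
  have e2 : ((2 * i' - j' : ℤ) : ℝ) ≤ ((2 * i - j + 1 : ℤ) : ℝ) := by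
    push_cast; linarith [a.1.1, a.1.2, b.1, b.2.1, b.2.2]
  have e3 : ((2 * j - 1 : ℤ) : ℝ) ≤ ((2 * j' + 1 : ℤ) : ℝ) := by
    push_cast; linarith [a.2.1.1, a.2.1.2, b.1, b.2.1, b.2.2]
  have e4 : ((2 * j' : ℤ) : ℝ) ≤ ((2 * j + 1 : ℤ) : ℝ) := by
    push_cast; linarith [a.2.1.1, a.2.1.2, b.1, b.2.1, b.2.2]
  have e5 : ((2 * i + j - 1 : ℤ) : ℝ) ≤ ((2 * i' + j' + 2 : ℤ) : ℝ) := by
    push_cast; linarith [a.2.2.1, a.2.2.2, b.1, b.2.1, b.2.2]
  have e6 : ((2 * i' + j' + 1 : ℤ) : ℝ) ≤ ((2 * i + j + 1 : ℤ) : ℝ) := by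
    push_cast; linarith [a.2.2.1, a.2.2.2, b.1, b.2.1, b.2.2]
  have := cast_le e1
  have := cast_le e2
  have := cast_le e3
  have := cast_le e4
  have := cast_le e5
  have := cast_le e6
  omega

theorem ee_hd (i j i' j' : ℤ) : EdgeToEdge (hexT i j) (dnT i' j') := by
  by_cases c1 : j' = j ∧ i' = i
  · obtain ⟨rfl, rfl⟩ := c1
    refine ee_side2 (2 * i' - j' + 1) (2 * j' - 1) ?_ ?_ ?_ ?_ ?_
    · simp only [hexT, hexV_pt]; simp
    · simp only [dnT, triV_down, mem_insert_iff, mem_singleton_iff, pt_inj]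
      right; left; constructor <;> first | trivial | ring
    · simp only [hexT, hexV_pt, mem_insert_iff, mem_singleton_iff, pt_inj]
      left; constructor <;> first | trivial | ring
    · simp only [dnT, triV_down, mem_insert_iff, mem_singleton_iff, pt_inj]
      left; constructor <;> first | trivial | ring
    · intro z h1 h2
      have a := hex_le h1
      have b := dn_le h2
      refine ⟨?_, ?_, ?_⟩ <;> linarith [a.1.1, a.1.2, a.2.1.1, a.2.1.2, a.2.2.1, a.2.2.2, b.1,
          b.2.1, b.2.2]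
  by_cases c2 : j' = j ∧ i' = i - 1
  · obtain ⟨rfl, rfl⟩ := c2
    refine ee_side3 (2 * i - j' - 1) (2 * j') ?_ ?_ ?_ ?_ ?_
    · simp only [hexT, hexV_pt]; simp
    · simp only [dnT, triV_down, mem_insert_iff, mem_singleton_iff, pt_inj]
      push_cast; left; constructor <;> first | trivial | ring
    · simp only [hexT, hexV_pt, mem_insert_iff, mem_singleton_iff, pt_inj]
      right; right; right; right; left; constructor <;> first | trivial | ring
    · simp only [dnT, triV_down, mem_insert_iff, mem_singleton_iff, pt_inj]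
      push_cast; right; right; constructor <;> first | trivial | ring
    · intro z h1 h2
      have a := hex_le h1
      have b := dn_le h2
      push_cast at b
      refine ⟨?_, ?_, ?_⟩ <;> linarith [a.1.1, a.1.2, a.2.1.1, a.2.1.2, a.2.2.1, a.2.2.2, b.1,
          b.2.1, b.2.2]
  by_cases c3 : j' = j + 1 ∧ i' = i
  · obtain ⟨rfl, rfl⟩ := c3
    refine ee_vertex (2 * i' - j) (2 * j + 1) ?_ ?_ ?_
    · simp only [hexT, hexV_pt]; simp
    · simp only [dnT, triV_down, mem_insert_iff, mem_singleton_iff, pt_inj]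
      push_cast; right; left; constructor <;> first | trivial | ring
    · intro z h1 h2
      have a := hex_le h1
      have b := dn_le h2
      push_cast at b
      constructor <;> linarith [a.1.1, a.1.2, a.2.1.1, a.2.1.2, a.2.2.1, a.2.2.2, b.1,
          b.2.1, b.2.2]
  by_cases c4 : j' = j + 1 ∧ i' = i - 1
  · obtain ⟨rfl, rfl⟩ := c4
    refine ee_vertex (2 * i - j - 1) (2 * j + 1) ?_ ?_ ?_
    · simp only [hexT, hexV_pt]; simp
    · simp only [dnT, triV_down, mem_insert_iff, mem_singleton_iff, pt_inj]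
      push_cast; right; right; constructor <;> first | trivial | ring
    · intro z h1 h2
      have a := hex_le h1
      have b := dn_le h2
      push_cast at b
      constructor <;> linarith [a.1.1, a.1.2, a.2.1.1, a.2.1.2, a.2.2.1, a.2.2.2, b.1,
          b.2.1, b.2.2]
  apply ee_empty
  intro z h1 h2
  have a := hex_le h1
  have b := dn_le h2
  have e1 : ((2 * i - j - 1 : ℤ) : ℝ) ≤ ((2 * i' - j' + 2 : ℤ) : ℝ) := by
    push_cast; linarith [a.1.1, a.1.2, b.1, b.2.1, b.2.2]
  have e2 : ((2 * i' - j' + 1 : ℤ) : ℝ) ≤ ((2 * i - j + 1 : ℤ) : ℝ) := by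
    push_cast; linarith [a.1.1, a.1.2, b.1, b.2.1, b.2.2]
  have e3 : ((2 * j - 1 : ℤ) : ℝ) ≤ ((2 * j' : ℤ) : ℝ) := by
    push_cast; linarith [a.2.1.1, a.2.1.2, b.1, b.2.1, b.2.2]
  have e4 : ((2 * j' - 1 : ℤ) : ℝ) ≤ ((2 * j + 1 : ℤ) : ℝ) := by
    push_cast; linarith [a.2.1.1, a.2.1.2, b.1, b.2.1, b.2.2]
  have e5 : ((2 * i + j - 1 : ℤ) : ℝ) ≤ ((2 * i' + j' + 1 : ℤ) : ℝ) := by
    push_cast; linarith [a.2.2.1, a.2.2.2, b.1, b.2.1, b.2.2]
  have e6 : ((2 * i' + j' : ℤ) : ℝ) ≤ ((2 * i + j + 1 : ℤ) : ℝ) := by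
    push_cast; linarith [a.2.2.1, a.2.2.2, b.1, b.2.1, b.2.2]
  have := cast_le e1
  have := cast_le e2
  have := cast_le e3
  have := cast_le e4
  have := cast_le e5
  have := cast_le e6
  omega

theorem ee_uu {i j i' j' : ℤ} (hne : ¬ (i = i' ∧ j = j')) : EdgeToEdge (upT i j) (upT i' j') := by
  apply ee_empty
  intro z h1 h2
  have a := up_le h1
  have b := up_le h2
  have e1 : ((2 * i - j : ℤ) : ℝ) ≤ ((2 * i' - j' + 1 : ℤ) : ℝ) := by
    push_cast; linarith [a.1, a.2.1, a.2.2, b.1, b.2.1, b.2.2]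
  have e2 : ((2 * i' - j' : ℤ) : ℝ) ≤ ((2 * i - j + 1 : ℤ) : ℝ) := by
    push_cast; linarith [a.1, a.2.1, a.2.2, b.1, b.2.1, b.2.2]
  have e3 : ((2 * j : ℤ) : ℝ) ≤ ((2 * j' + 1 : ℤ) : ℝ) := by
    push_cast; linarith [a.1, a.2.1, a.2.2, b.1, b.2.1, b.2.2]
  have e4 : ((2 * j' : ℤ) : ℝ) ≤ ((2 * j + 1 : ℤ) : ℝ) := by
    push_cast; linarith [a.1, a.2.1, a.2.2, b.1, b.2.1, b.2.2]
  have := cast_le e1
  have := cast_le e2
  have := cast_le e3
  have := cast_le e4
  omega

theorem ee_dd {i j i' j' : ℤ} (hne : ¬ (i = i' ∧ j = j')) : EdgeToEdge (dnT i j) (dnT i' j') := by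
  apply ee_empty
  intro z h1 h2
  have a := dn_le h1
  have b := dn_le h2
  have e1 : ((2 * i - j : ℤ) : ℝ) ≤ ((2 * i' - j' + 1 : ℤ) : ℝ) := by
    push_cast; linarith [a.1, a.2.1, a.2.2, b.1, b.2.1, b.2.2]
  have e2 : ((2 * i' - j' : ℤ) : ℝ) ≤ ((2 * i - j + 1 : ℤ) : ℝ) := by
    push_cast; linarith [a.1, a.2.1, a.2.2, b.1, b.2.1, b.2.2]
  have e3 : ((2 * j : ℤ) : ℝ) ≤ ((2 * j' + 1 : ℤ) : ℝ) := by
    push_cast; linarith [a.1, a.2.1, a.2.2, b.1, b.2.1, b.2.2]
  have e4 : ((2 * j' : ℤ) : ℝ) ≤ ((2 * j + 1 : ℤ) : ℝ) := by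
    push_cast; linarith [a.1, a.2.1, a.2.2, b.1, b.2.1, b.2.2]
  have := cast_le e1
  have := cast_le e2
  have := cast_le e3
  have := cast_le e4
  omega

theorem ee_ud (i j i' j' : ℤ) : EdgeToEdge (upT i j) (dnT i' j') := by
  by_cases c1 : j' = j ∧ i' = i
  · obtain ⟨rfl, rfl⟩ := c1
    refine ee_vertex (2 * i' - j' + 1) (2 * j') ?_ ?_ ?_
    · simp only [upT, triV_up]; simp
    · simp only [dnT, triV_down]; simp
    · intro z h1 h2
      have a := up_le h1
      have b := dn_le h2
      constructor <;> linarith [a.1, a.2.1, a.2.2, b.1, b.2.1, b.2.2]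
  by_cases c2 : j' = j + 1 ∧ i' = i
  · obtain ⟨rfl, rfl⟩ := c2
    refine ee_side1 (2 * i' - j) (2 * j + 1) ?_ ?_ ?_ ?_ ?_
    · simp only [upT, triV_up, mem_insert_iff, mem_singleton_iff, pt_inj]
      right; right; constructor <;> first | trivial | ring
    · simp only [dnT, triV_down, mem_insert_iff, mem_singleton_iff, pt_inj]
      push_cast; right; left; constructor <;> first | trivial | ring
    · simp only [upT, triV_up, mem_insert_iff, mem_singleton_iff, pt_inj]
      right; left; constructor <;> first | trivial | ring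
    · simp only [dnT, triV_down, mem_insert_iff, mem_singleton_iff, pt_inj]
      push_cast; right; right; constructor <;> first | trivial | ring
    · intro z h1 h2
      have a := up_le h1
      have b := dn_le h2
      push_cast at b
      refine ⟨?_, ?_, ?_⟩ <;> linarith [a.1, a.2.1, a.2.2, b.1, b.2.1, b.2.2]
  apply ee_empty
  intro z h1 h2
  have a := up_le h1
  have b := dn_le h2
  have e1 : ((2 * i - j : ℤ) : ℝ) ≤ ((2 * i' - j' + 2 : ℤ) : ℝ) := by
    push_cast; linarith [a.1, a.2.1, a.2.2, b.1, b.2.1, b.2.2]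
  have e2 : ((2 * i' - j' + 1 : ℤ) : ℝ) ≤ ((2 * i - j + 1 : ℤ) : ℝ) := by
    push_cast; linarith [a.1, a.2.1, a.2.2, b.1, b.2.1, b.2.2]
  have e3 : ((2 * j : ℤ) : ℝ) ≤ ((2 * j' : ℤ) : ℝ) := by
    push_cast; linarith [a.1, a.2.1, a.2.2, b.1, b.2.1, b.2.2]
  have e4 : ((2 * j' - 1 : ℤ) : ℝ) ≤ ((2 * j + 1 : ℤ) : ℝ) := by
    push_cast; linarith [a.1, a.2.1, a.2.2, b.1, b.2.1, b.2.2]
  have e5 : ((2 * i + j + 1 : ℤ) : ℝ) ≤ ((2 * i' + j' + 1 : ℤ) : ℝ) := by
    push_cast; linarith [a.1, a.2.1, a.2.2, b.1, b.2.1, b.2.2]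
  have := cast_le e1
  have := cast_le e2
  have := cast_le e3
  have := cast_le e4
  have := cast_le e5
  omega

theorem ee_τ : ∀ V ∈ τ, ∀ W ∈ τ, V ≠ W → EdgeToEdge V W := by
  rintro V ⟨i, j, hV⟩ W ⟨i', j', hW⟩ hne
  rcases hV with rfl | rfl | rfl <;> rcases hW with rfl | rfl | rfl
  · exact ee_hh (by rintro ⟨rfl, rfl⟩; exact hne rfl)
  · exact ee_hu _ _ _ _
  · exact ee_hd _ _ _ _
  · exact ee_symm (ee_hu _ _ _ _)
  · exact ee_uu (by rintro ⟨rfl, rfl⟩; exact hne rfl)
  · exact ee_ud _ _ _ _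
  · exact ee_symm (ee_hd _ _ _ _)
  · exact ee_symm (ee_ud _ _ _ _)
  · exact ee_dd (by rintro ⟨rfl, rfl⟩; exact hne rfl)

theorem cover_τ : Supp τ = Set.univ := by
  apply eq_univ_of_forall
  intro z
  set N := cN z with hN
  set X := 2 * cM z + cN z with hX
  -- nearest row and nearest column
  set j : ℤ := round (N / 2) with hj
  set i : ℤ := round (X / 4) with hi
  have hj' := abs_le.1 (abs_sub_round (N / 2))
  have hi' := abs_le.1 (abs_sub_round (X / 4))
  rw [← hj] at hj'
  rw [← hi] at hi'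
  have hmem : ∀ V ∈ τ, z ∈ Reg V → z ∈ Supp τ := fun V hV hz => mem_biUnion hV hz
  by_cases h1 : X - 4 * i + (N - 2 * j) ≤ 2 ∧ X - 4 * i - (N - 2 * j) ≤ 2
  · by_cases h2 : -2 ≤ X - 4 * i + (N - 2 * j) ∧ -2 ≤ X - 4 * i - (N - 2 * j)
    · apply hmem (hexT i j) ⟨i, j, Or.inl rfl⟩
      apply mem_hex <;> linarith [h1.1, h1.2, h2.1, h2.2, hj'.1, hj'.2, hi'.1, hi'.2]
    · by_cases h3 : 2 * j ≤ N
      · apply hmem (upT (i - 1) j) ⟨i - 1, j, Or.inr (Or.inl rfl)⟩
        rw [not_and_or, not_le, not_le] at h2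
        apply mem_up <;> push_cast <;> rcases h2 with h2 | h2 <;>
          linarith [h1.1, h1.2, hj'.1, hj'.2, hi'.1, hi'.2]
      · apply hmem (dnT (i - 1) j) ⟨i - 1, j, Or.inr (Or.inr rfl)⟩
        rw [not_and_or, not_le, not_le] at h2
        apply mem_dn <;> push_cast <;> rcases h2 with h2 | h2 <;>
          linarith [h1.1, h1.2, hj'.1, hj'.2, hi'.1, hi'.2]
  · by_cases h3 : 2 * j ≤ N
    · apply hmem (upT i j) ⟨i, j, Or.inr (Or.inl rfl)⟩
      rw [not_and_or, not_le, not_le] at h1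
      apply mem_up <;> rcases h1 with h1 | h1 <;>
        linarith [hj'.1, hj'.2, hi'.1, hi'.2]
    · apply hmem (dnT i j) ⟨i, j, Or.inr (Or.inr rfl)⟩
      rw [not_and_or, not_le, not_le] at h1
      apply mem_dn <;> rcases h1 with h1 | h1 <;>
        linarith [hj'.1, hj'.2, hi'.1, hi'.2]

/-! ### The vertices of the tiling -/

theorem mem_hexT (a b i j : ℤ) : pt a b ∈ hexT i j ↔
    (a = 2 * i - j + 1 ∧ b = 2 * j) ∨ (a = 2 * i - j ∧ b = 2 * j + 1) ∨
    (a = 2 * i - j - 1 ∧ b = 2 * j + 1) ∨ (a = 2 * i - j - 1 ∧ b = 2 * j) ∨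
    (a = 2 * i - j ∧ b = 2 * j - 1) ∨ (a = 2 * i - j + 1 ∧ b = 2 * j - 1) := by
  simp only [hexT, hexV_pt, mem_insert_iff, mem_singleton_iff, pt_inj]
  norm_cast

theorem mem_upT (a b i j : ℤ) : pt a b ∈ upT i j ↔
    (a = 2 * i - j + 1 ∧ b = 2 * j) ∨ (a = 2 * i - j + 1 ∧ b = 2 * j + 1) ∨
    (a = 2 * i - j + 1 - 1 ∧ b = 2 * j + 1) := by
  simp only [upT, triV_up, mem_insert_iff, mem_singleton_iff, pt_inj]
  norm_cast

theorem mem_dnT (a b i j : ℤ) : pt a b ∈ dnT i j ↔
    (a = 2 * i - j + 1 ∧ b = 2 * j) ∨ (a = 2 * i - j + 1 ∧ b = 2 * j - 1) ∨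
    (a = 2 * i - j + 1 + 1 ∧ b = 2 * j - 1) := by
  simp only [dnT, triV_down, mem_insert_iff, mem_singleton_iff, pt_inj]
  norm_cast

theorem isHex_hexT (i j : ℤ) : IsHex (hexT i j) := isHex_one _
theorem isTri_upT (i j : ℤ) : IsTri (upT i j) := ⟨_, _, norm_ζ, rfl⟩
theorem isTri_dnT (i j : ℤ) : IsTri (dnT i j) := ⟨_, _, by rw [norm_neg]; exact norm_ζ, rfl⟩

theorem tri_dist {V : Set ℂ} (hV : IsTri V) {x y : ℂ} (hx : x ∈ V) (hy : y ∈ V) : ‖x - y‖ ≤ 1 := by
  obtain ⟨a, u, hu, rfl⟩ := hV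
  have h1 : ‖u * ζ‖ = 1 := by rw [norm_mul, hu, norm_ζ, one_mul]
  have h2 : ‖u * (ζ - 1)‖ = 1 := by rw [norm_mul, hu, norm_ζ', one_mul]
  rcases hx with hx | hx | hx <;> rcases hy with hy | hy | hy <;>
    (try rw [mem_singleton_iff] at hx) <;> (try rw [mem_singleton_iff] at hy) <;> rw [hx, hy]
  · simp
  · have : a - (a + u) = -u := by ring
    rw [this, norm_neg, hu]
  · have : a - (a + u * ζ) = -(u * ζ) := by ring
    rw [this, norm_neg, h1]
  · have : a + u - a = u := by ring
    rw [this, hu]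
  · simp
  · have : a + u - (a + u * ζ) = -(u * (ζ - 1)) := by ring
    rw [this, norm_neg, h2]
  · have : a + u * ζ - a = u * ζ := by ring
    rw [this, h1]
  · have : a + u * ζ - (a + u) = u * (ζ - 1) := by ring
    rw [this, h2]
  · simp

theorem tri_not_hex {V : Set ℂ} (h1 : IsTri V) (h2 : IsHex V) : False := by
  obtain ⟨c, u, hu, rfl⟩ := h2
  have := tri_dist h1 (x := c + u) (y := c - u) (by rw [hexV_eq]; simp) (by rw [hexV_eq]; simp)
  have e : c + u - (c - u) = 2 * u := by ring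
  rw [e, norm_mul, hu] at this
  norm_num at this

theorem up_ne_dn (i j i' j' : ℤ) : upT i j ≠ dnT i' j' := by
  intro h
  have h1 : pt ((2 * i - j + 1 : ℤ)) ((2 * j : ℤ)) ∈ dnT i' j' := by
    rw [← h, mem_upT]; left; exact ⟨rfl, rfl⟩
  have h2 : pt ((2 * i - j + 1 : ℤ)) ((2 * j + 1 : ℤ)) ∈ dnT i' j' := by
    rw [← h, mem_upT]; right; left; exact ⟨rfl, rfl⟩
  rw [mem_dnT] at h1 h2
  omega

theorem hexT_ne {i j i' j' : ℤ} (h : ¬ (i = i' ∧ j = j')) : hexT i j ≠ hexT i' j' := by
  intro he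
  obtain ⟨h1, h2⟩ := hexV_inj he
  apply h
  norm_cast at h1 h2
  omega

theorem count_tri {p : ℂ} (i1 j1 i2 j2 : ℤ) (h1 : ∀ i j, p ∈ upT i j ↔ i = i1 ∧ j = j1)
    (h2 : ∀ i j, p ∈ dnT i j ↔ i = i2 ∧ j = j2) : {W ∈ τ | IsTri W ∧ p ∈ W}.encard = 2 := by
  have : {W ∈ τ | IsTri W ∧ p ∈ W} = {upT i1 j1, dnT i2 j2} := by
    ext W
    simp only [mem_insert_iff, mem_singleton_iff]
    constructor
    · rintro ⟨⟨i, j, hW⟩, ht, hp⟩
      rcases hW with rfl | rfl | rfl
      · exact absurd (isHex_hexT i j) (fun h => tri_not_hex ht h)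
      · obtain ⟨rfl, rfl⟩ := (h1 i j).1 hp; left; rfl
      · obtain ⟨rfl, rfl⟩ := (h2 i j).1 hp; right; rfl
    · rintro (rfl | rfl)
      · exact ⟨⟨i1, j1, Or.inr (Or.inl rfl)⟩, isTri_upT _ _, (h1 _ _).2 ⟨rfl, rfl⟩⟩
      · exact ⟨⟨i2, j2, Or.inr (Or.inr rfl)⟩, isTri_dnT _ _, (h2 _ _).2 ⟨rfl, rfl⟩⟩
  rw [this, encard_pair (up_ne_dn _ _ _ _)]

theorem count_hex {p : ℂ} (i1 j1 i2 j2 : ℤ) (hne : ¬ (i1 = i2 ∧ j1 = j2))
    (h : ∀ i j, p ∈ hexT i j ↔ (i = i1 ∧ j = j1) ∨ (i = i2 ∧ j = j2)) :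
    {W ∈ τ | IsHex W ∧ p ∈ W}.encard = 2 := by
  have : {W ∈ τ | IsHex W ∧ p ∈ W} = {hexT i1 j1, hexT i2 j2} := by
    ext W
    simp only [mem_insert_iff, mem_singleton_iff]
    constructor
    · rintro ⟨⟨i, j, hW⟩, ht, hp⟩
      rcases hW with rfl | rfl | rfl
      · rcases (h i j).1 hp with ⟨rfl, rfl⟩ | ⟨rfl, rfl⟩
        · left; rfl
        · right; rfl
      · exact absurd (isTri_upT i j) (fun h => tri_not_hex h ht)
      · exact absurd (isTri_dnT i j) (fun h => tri_not_hex h ht)
    · rintro (rfl | rfl)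
      · exact ⟨⟨i1, j1, Or.inl rfl⟩, isHex_hexT _ _, (h _ _).2 (Or.inl ⟨rfl, rfl⟩)⟩
      · exact ⟨⟨i2, j2, Or.inl rfl⟩, isHex_hexT _ _, (h _ _).2 (Or.inr ⟨rfl, rfl⟩)⟩
  rw [this, encard_pair (hexT_ne hne)]

theorem kinds {V : Set ℂ} (hV : V ∈ τ) {p : ℂ} (hp : p ∈ V) : ∃ i j : ℤ,
    p = pt ((2 * i - j + 1 : ℤ)) ((2 * j : ℤ)) ∨ p = pt ((2 * i - j : ℤ)) ((2 * j + 1 : ℤ)) ∨
      p = pt ((2 * i - j - 1 : ℤ)) ((2 * j + 1 : ℤ)) := by
  obtain ⟨i, j, rfl | rfl | rfl⟩ := hV
  · rw [hexT, hexV_pt] at hp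
    rcases hp with rfl | rfl | rfl | rfl | rfl | hp
    · refine ⟨i, j, Or.inl ?_⟩; rw [pt_inj]; push_cast; constructor <;> first | trivial | ring
    · refine ⟨i, j, Or.inr (Or.inl ?_)⟩; rw [pt_inj]; push_cast
      constructor <;> first | trivial | ring
    · refine ⟨i, j, Or.inr (Or.inr ?_)⟩; rw [pt_inj]; push_cast
      constructor <;> first | trivial | ring
    · refine ⟨i - 1, j, Or.inl ?_⟩; rw [pt_inj]; push_cast; constructor <;> first | trivial | ring
    · refine ⟨i, j - 1, Or.inr (Or.inr ?_)⟩; rw [pt_inj]; push_cast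
      constructor <;> first | trivial | ring
    · rw [mem_singleton_iff] at hp
      rw [hp]
      refine ⟨i, j - 1, Or.inr (Or.inl ?_)⟩; rw [pt_inj]; push_cast
      constructor <;> first | trivial | ring
  · rw [upT, triV_up] at hp
    rcases hp with rfl | rfl | hp
    · refine ⟨i, j, Or.inl ?_⟩; rw [pt_inj]; push_cast; constructor <;> first | trivial | ring
    · refine ⟨i + 1, j, Or.inr (Or.inr ?_)⟩; rw [pt_inj]; push_cast
      constructor <;> first | trivial | ring
    · rw [mem_singleton_iff] at hp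
      rw [hp]
      refine ⟨i, j, Or.inr (Or.inl ?_)⟩; rw [pt_inj]; push_cast
      constructor <;> first | trivial | ring
  · rw [dnT, triV_down] at hp
    rcases hp with rfl | rfl | hp
    · refine ⟨i, j, Or.inl ?_⟩; rw [pt_inj]; push_cast; constructor <;> first | trivial | ring
    · refine ⟨i, j - 1, Or.inr (Or.inl ?_)⟩; rw [pt_inj]; push_cast
      constructor <;> first | trivial | ring
    · rw [mem_singleton_iff] at hp
      rw [hp]
      refine ⟨i + 1, j - 1, Or.inr (Or.inr ?_)⟩; rw [pt_inj]; push_cast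
      constructor <;> first | trivial | ring

theorem count_τ {V : Set ℂ} (hV : V ∈ τ) {p : ℂ} (hp : p ∈ V) :
    {W ∈ τ | IsTri W ∧ p ∈ W}.encard = 2 ∧ {W ∈ τ | IsHex W ∧ p ∈ W}.encard = 2 := by
  obtain ⟨i, j, rfl | rfl | rfl⟩ := kinds hV hp
  · refine ⟨count_tri i j i j ?_ ?_, count_hex i j (i + 1) j (by omega) ?_⟩ <;> intro i' j'
    · rw [mem_upT]; omega
    · rw [mem_dnT]; omega
    · rw [mem_hexT]; omega
  · refine ⟨count_tri i j i (j + 1) ?_ ?_, count_hex i j i (j + 1) (by omega) ?_⟩ <;> intro i' j'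
    · rw [mem_upT]; omega
    · rw [mem_dnT]; omega
    · rw [mem_hexT]; omega
  · refine ⟨count_tri (i - 1) j (i - 1) (j + 1) ?_ ?_, count_hex i j i (j + 1) (by omega) ?_⟩ <;>
      intro i' j'
    · rw [mem_upT]; omega
    · rw [mem_dnT]; omega
    · rw [mem_hexT]; omega

theorem tiling_τ : IsTiling τ := by
  refine ⟨?_, ee_τ, cover_τ, fun V hV p hp => count_τ hV hp⟩
  rintro V ⟨i, j, rfl | rfl | rfl⟩
  · exact Or.inr (isHex_hexT i j)
  · exact Or.inl (isTri_upT i j)
  · exact Or.inl (isTri_dnT i j)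

/-! ### The column of three hexagons -/

/-- The patch: three hexagons in a column. -/
noncomputable def A : Set (Set ℂ) := {hexT 0 0, hexT 0 1, hexT 0 (-1)}

theorem A_sub : A ⊆ τ := by
  rintro V (rfl | rfl | hV)
  · exact ⟨0, 0, Or.inl rfl⟩
  · exact ⟨0, 1, Or.inl rfl⟩
  · rw [mem_singleton_iff] at hV
    exact ⟨0, -1, Or.inl hV⟩

/-- The width of the column at height `y`. -/
noncomputable def wid (y : ℝ) : ℝ :=
  2 - min 1 (min |2 / √3 * y| (min |2 / √3 * y - 2| |2 / √3 * y + 2|))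

theorem wid_cont : Continuous wid := by unfold wid; fun_prop

theorem wid_pos (y : ℝ) : 0 < wid y := by
  have : min 1 (min |2 / √3 * y| (min |2 / √3 * y - 2| |2 / √3 * y + 2|)) ≤ 1 := min_le_left _ _
  unfold wid; linarith

/-- The homeomorphism of the plane straightening the column. -/
noncomputable def Φ : ℂ ≃ₜ ℂ where
  toFun z := ((z.re / wid z.im : ℝ) : ℂ) + (z.im : ℂ) * Complex.I
  invFun z := ((z.re * wid z.im : ℝ) : ℂ) + (z.im : ℂ) * Complex.I
  left_inv z := by
    have := (wid_pos z.im).ne'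
    apply Complex.ext
    · simp only [Complex.add_re, Complex.add_im, Complex.ofReal_re, Complex.ofReal_im, Complex.mul_re,
        Complex.mul_im, Complex.I_re, Complex.I_im, mul_zero, mul_one, zero_add, add_zero, sub_zero]
      field_simp
    · simp
  right_inv z := by
    have := (wid_pos z.im).ne'
    apply Complex.ext
    · simp only [Complex.add_re, Complex.add_im, Complex.ofReal_re, Complex.ofReal_im, Complex.mul_re,
        Complex.mul_im, Complex.I_re, Complex.I_im, mul_zero, mul_one, zero_add, add_zero, sub_zero]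
      field_simp
    · simp
  continuous_toFun := by
    have h1 : Continuous (fun z : ℂ => z.re / wid z.im) :=
      Complex.continuous_re.div (wid_cont.comp Complex.continuous_im) (fun z => (wid_pos z.im).ne')
    exact (Complex.continuous_ofReal.comp h1).add
      ((Complex.continuous_ofReal.comp Complex.continuous_im).mul continuous_const)
  continuous_invFun := by
    have h1 : Continuous (fun z : ℂ => z.re * wid z.im) :=
      Complex.continuous_re.mul (wid_cont.comp Complex.continuous_im)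
    exact (Complex.continuous_ofReal.comp h1).add
      ((Complex.continuous_ofReal.comp Complex.continuous_im).mul continuous_const)

/-- A rectangle. -/
def Q : Set ℂ := {z | |z.re| ≤ 1 / 2 ∧ |z.im| ≤ 3 * √3 / 2}

theorem Φ_re (z : ℂ) : (Φ z).re = z.re / wid z.im := by
  show (((z.re / wid z.im : ℝ) : ℂ) + (z.im : ℂ) * Complex.I).re = _
  simp

theorem Φ_im (z : ℂ) : (Φ z).im = z.im := by
  show (((z.re / wid z.im : ℝ) : ℂ) + (z.im : ℂ) * Complex.I).im = _
  simp

theorem Φ_mem (z : ℂ) : Φ z ∈ Q ↔ |2 * cM z + cN z| ≤ wid z.im ∧ |cN z| ≤ 3 := by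
  have h3 := sq3_pos
  have hw := wid_pos z.im
  show |(Φ z).re| ≤ 1 / 2 ∧ |(Φ z).im| ≤ 3 * √3 / 2 ↔ _
  rw [Φ_re, Φ_im]
  have e1 : 2 * cM z + cN z = 2 * z.re := by
    rw [cM_apply, cN_apply]; ring
  have e2 : |cN z| ≤ 3 ↔ |z.im| ≤ 3 * √3 / 2 := by
    rw [cN_apply, abs_mul, abs_of_pos (by positivity : (0 : ℝ) < 2 / √3)]
    rw [div_mul_eq_mul_div, div_le_iff₀ h3, le_div_iff₀ (by norm_num : (0 : ℝ) < 2)]
    constructor <;> intro h <;> linarith
  rw [e1, e2, abs_div, abs_of_pos hw, div_le_iff₀ hw, abs_mul, abs_two]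
  constructor
  · rintro ⟨a, b⟩; exact ⟨by linarith, b⟩
  · rintro ⟨a, b⟩; exact ⟨by linarith, b⟩

theorem mem_hexT_reg (k : ℤ) (z : ℂ) : z ∈ Reg (hexT 0 k) ↔
    |2 * cM z + cN z| ≤ 2 - |cN z - 2 * k| ∧ |cN z - 2 * k| ≤ 1 := by
  constructor
  · intro h
    have a := hex_le h
    push_cast at a
    constructor
    · rcases abs_cases (2 * cM z + cN z) with ⟨h1, _⟩ | ⟨h1, _⟩ <;>
        rcases abs_cases (cN z - 2 * k) with ⟨h2, _⟩ | ⟨h2, _⟩ <;> rw [h1, h2] <;>
        linarith [a.1.1, a.1.2, a.2.1.1, a.2.1.2, a.2.2.1, a.2.2.2]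
    · rw [abs_le]
      constructor <;> linarith [a.2.1.1, a.2.1.2]
  · rintro ⟨h1, h2⟩
    have h3 := abs_le.1 h2
    have h4 := abs_le.1 h1
    have h5 := le_abs_self (cN z - 2 * k)
    have h6 := neg_abs_le (cN z - 2 * k)
    apply mem_hex <;> push_cast <;> linarith [h3.1, h3.2, h4.1, h4.2]

theorem Φ_pre : Φ ⁻¹' Q = Supp A := by
  ext z
  rw [mem_preimage, Φ_mem]
  have hun : z ∈ Supp A ↔ z ∈ Reg (hexT 0 0) ∨ z ∈ Reg (hexT 0 1) ∨ z ∈ Reg (hexT 0 (-1)) := by
    simp only [Supp, A, mem_iUnion, mem_insert_iff, mem_singleton_iff, exists_prop]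
    constructor
    · rintro ⟨V, rfl | rfl | rfl, h⟩
      · exact Or.inl h
      · exact Or.inr (Or.inl h)
      · exact Or.inr (Or.inr h)
    · rintro (h | h | h)
      · exact ⟨_, Or.inl rfl, h⟩
      · exact ⟨_, Or.inr (Or.inl rfl), h⟩
      · exact ⟨_, Or.inr (Or.inr rfl), h⟩
  rw [hun, mem_hexT_reg, mem_hexT_reg, mem_hexT_reg]
  have hw : wid z.im = 2 - min 1 (min |cN z| (min |cN z - 2| |cN z + 2|)) := by
    unfold wid; rw [cN_apply]
  rw [hw]
  push_cast
  have e0 : cN z - 2 * 0 = cN z := by ring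
  have e1 : cN z - 2 * 1 = cN z - 2 := by ring
  have e2 : cN z - 2 * -1 = cN z + 2 := by ring
  rw [e0, e1, e2]
  set X := |2 * cM z + cN z|
  set S := cN z
  constructor
  · rintro ⟨h1, h2⟩
    have h2' := abs_le.1 h2
    rcases le_total S (-1) with h | h
    · right; right
      have hle : |S + 2| ≤ 1 := by rw [abs_le]; constructor <;> linarith
      refine ⟨?_, hle⟩
      have : |S + 2| ≤ min 1 (min |S| (min |S - 2| |S + 2|)) := by
        refine le_min hle (le_min ?_ (le_min ?_ le_rfl))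
        · rw [abs_of_nonpos (by linarith : S ≤ 0)]; linarith
        · rw [abs_of_nonpos (by linarith : S - 2 ≤ 0)]; linarith
      linarith
    · rcases le_total S 1 with h' | h'
      · left
        have hle : |S| ≤ 1 := by rw [abs_le]; constructor <;> linarith
        refine ⟨?_, hle⟩
        have : |S| ≤ min 1 (min |S| (min |S - 2| |S + 2|)) := by
          refine le_min hle (le_min le_rfl (le_min ?_ ?_))
          · rw [abs_of_nonpos (by linarith : S - 2 ≤ 0)]; linarith
          · rw [abs_of_nonneg (by linarith : 0 ≤ S + 2)]; linarith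
        linarith
      · right; left
        have hle : |S - 2| ≤ 1 := by rw [abs_le]; constructor <;> linarith
        refine ⟨?_, hle⟩
        have : |S - 2| ≤ min 1 (min |S| (min |S - 2| |S + 2|)) := by
          refine le_min hle (le_min ?_ (le_min le_rfl ?_))
          · rw [abs_of_nonneg (by linarith : 0 ≤ S)]; linarith
          · rw [abs_of_nonneg (by linarith : 0 ≤ S + 2)]; linarith
        linarith
  · have m0 : min 1 (min |S| (min |S - 2| |S + 2|)) ≤ |S| := (min_le_right _ _).trans (min_le_left _ _)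
    have m1 : min 1 (min |S| (min |S - 2| |S + 2|)) ≤ |S - 2| :=
      (min_le_right _ _).trans ((min_le_right _ _).trans (min_le_left _ _))
    have m2 : min 1 (min |S| (min |S - 2| |S + 2|)) ≤ |S + 2| :=
      (min_le_right _ _).trans ((min_le_right _ _).trans (min_le_right _ _))
    rintro (⟨h1, h2⟩ | ⟨h1, h2⟩ | ⟨h1, h2⟩)
    · exact ⟨by linarith, by linarith⟩
    · refine ⟨by linarith, ?_⟩
      have := abs_le.1 h2
      rw [abs_le]; constructor <;> linarith [this.1, this.2]
    · refine ⟨by linarith, ?_⟩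
      have := abs_le.1 h2
      rw [abs_le]; constructor <;> linarith [this.1, this.2]

theorem Q_convex : Convex ℝ Q := by
  rintro x ⟨hx1, hx2⟩ y ⟨hy1, hy2⟩ a b ha hb hab
  rw [abs_le] at hx1 hx2 hy1 hy2
  constructor
  · simp only [Complex.add_re, Complex.smul_re, smul_eq_mul]
    rw [abs_le]
    constructor <;> nlinarith [hx1.1, hx1.2, hy1.1, hy1.2]
  · simp only [Complex.add_im, Complex.smul_im, smul_eq_mul]
    rw [abs_le]
    constructor <;> nlinarith [hx2.1, hx2.2, hy2.1, hy2.2]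

theorem Q_closed : IsClosed Q :=
  (isClosed_le (Complex.continuous_re.abs) continuous_const).inter
    (isClosed_le (Complex.continuous_im.abs) continuous_const)

theorem Q_bounded : Bornology.IsBounded Q := by
  rw [isBounded_iff_forall_norm_le]
  refine ⟨1 / 2 + 3 * √3 / 2, ?_⟩
  rintro z ⟨h1, h2⟩
  exact (Complex.norm_le_abs_re_add_abs_im z).trans (by linarith)

theorem Q_interior : (interior Q).Nonempty := by
  refine ⟨0, ?_⟩
  rw [mem_interior_iff_mem_nhds, Metric.mem_nhds_iff]
  refine ⟨1 / 2, by norm_num, ?_⟩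
  intro z hz
  rw [Metric.mem_ball, dist_zero_right] at hz
  have h3 : (1 : ℝ) ≤ √3 := Real.one_le_sqrt.2 (by norm_num)
  refine ⟨(Complex.abs_re_le_norm z).trans hz.le, (Complex.abs_im_le_norm z).trans ?_⟩
  linarith

theorem disk_A : Nonempty (Supp A ≃ₜ Metric.closedBall (0 : ℂ) 1) := by
  obtain ⟨h, -, h2, -⟩ := exists_homeomorph_image_interior_closure_frontier_eq_unitBall Q_convex
    Q_interior Q_bounded
  rw [Q_closed.closure_eq] at h2
  have himg : (Φ.trans h) '' (Supp A) = Metric.closedBall (0 : ℂ) 1 := by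
    rw [← Φ_pre, ← h2]
    change (fun z => h (Φ z)) '' (Φ ⁻¹' Q) = h '' Q
    rw [← image_image (g := h) (f := Φ), image_preimage_eq _ Φ.surjective]
  exact ⟨((Φ.trans h).image (Supp A)).trans (Homeomorph.setCongr himg)⟩

theorem patch_A : IsPatch A := by
  refine ⟨by simp [A], fun V hV => ?_, fun V hV W hW h => ee_τ V (A_sub hV) W (A_sub hW) h, disk_A, ?_⟩
  · exact tiling_τ.1 V (A_sub hV)
  · intro V hV p hp
    obtain ⟨h1, h2⟩ := count_τ (A_sub hV) hp
    constructor
    · rw [← h1]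
      exact encard_le_encard (fun W hW => ⟨A_sub hW.1, hW.2⟩)
    · rw [← h2]
      exact encard_le_encard (fun W hW => ⟨A_sub hW.1, hW.2⟩)

/-- There is a patch that extends to a tiling of the plane but to no convex patch. -/
theorem result : ∃ A : Set (Set ℂ), IsPatch A ∧ (∃ τ, IsTiling τ ∧ A ⊆ τ) ∧
    ¬ ∃ B : Set (Set ℂ), IsPatch B ∧ Convex ℝ (Supp B) ∧ A ⊆ B := by
  refine ⟨A, patch_A, ⟨τ, tiling_τ, A_sub⟩, ?_⟩
  rintro ⟨B, ⟨hfin, ht, hee, -, hadm⟩, hconv, hAB⟩
  refine no_column hfin ht hee hadm hconv ?_ ?_ ?_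
  · have : hexT 0 0 ∈ B := hAB (by simp [A])
    rw [hexT] at this
    convert this using 2
    norm_num
  · have : hexT 0 1 ∈ B := hAB (by simp [A])
    rw [hexT] at this
    convert this using 2
    norm_num
  · have : hexT 0 (-1) ∈ B := hAB (by simp [A])
    rw [hexT] at this
    convert this using 2
    norm_num

end Pool.Agent.Results.MP_12bd27_co.Column
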